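import Mathlib

set_option autoImplicit false

namespace Pool.Agent.H.MP_023270_nt

open Complex Filter Topology Finset

theorem tele (u : ℝ) (hu : 0 < u) (n : ℕ) : ∑ j ∈ range n, 1 / (u + (j + 1)) ^ 2 ≤ 1 / u := by
  have : ∀ n : ℕ, ∑ j ∈ range n, 1 / (u + (j + 1)) ^ 2 ≤ 1 / u - 1 / (u + n) := by
    intro n
    induction n with
    | zero => simp
    | succ n ih =>
      rw [sum_range_succ]
      push_cast
      have h1 : 1 / (u + (n + 1)) ^ 2 ≤ 1 / (u + n) - 1 / (u + (n + 1)) := by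
        rw [div_sub_div _ _ (by positivity) (by positivity), div_le_div_iff₀ (by positivity)
          (by positivity)]
        have : (0 : ℝ) ≤ n := Nat.cast_nonneg n
        nlinarith [mul_pos (show 0 < u + (n + 1) by positivity) (show 0 < u + (n + 1) by positivity)]
      linarith
  have h2 : 0 ≤ 1 / (u + n) := by positivity
  linarith [this n]

theorem norm_add_ge (ζ : ℂ) (h0 : 0 ≤ ζ.re) (j : ℕ) :
    (ζ.im + j) ^ 2 / 2 ≤ ‖ζ + j‖ ^ 2 := by
  rw [Complex.sq_norm, Complex.normSq_apply]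
  simp only [add_re, natCast_re, add_im, natCast_im, add_zero]
  have : (0 : ℝ) ≤ j := Nat.cast_nonneg j
  nlinarith [sq_nonneg (ζ.im - j)]

theorem sum_inv_sq (ζ : ℂ) (h0 : 0 ≤ ζ.re) (ht : 1 ≤ ζ.im) (n : ℕ) :
    ∑ j ∈ range (n + 1), 1 / ‖ζ + j‖ ^ 2 ≤ 4 / ζ.im := by
  have h1 : ∀ j ∈ range (n + 1), 1 / ‖ζ + j‖ ^ 2 ≤ 2 * (1 / (ζ.im + j) ^ 2) := by
    intro j _
    have := norm_add_ge ζ h0 j
    have h2 : 0 < (ζ.im + j) ^ 2 / 2 := by positivity
    calc 1 / ‖ζ + j‖ ^ 2 ≤ 1 / ((ζ.im + j) ^ 2 / 2) := by gcongr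
      _ = _ := by field_simp
  refine (sum_le_sum h1).trans ?_
  rw [← mul_sum, sum_range_succ']
  have h3 := tele ζ.im (by linarith) n
  push_cast
  have h4 : 1 / (ζ.im + 0) ^ 2 ≤ 1 / ζ.im := by
    rw [add_zero]
    gcongr
    nlinarith
  have : 4 / ζ.im = 2 * (1 / ζ.im + 1 / ζ.im) := by ring
  rw [this]
  gcongr

theorem log_aux (u : ℂ) (hu : ‖u‖ ≤ 1 / 2) : ‖u - log (1 + u)‖ ≤ ‖u‖ ^ 2 ∧ 1 + u ≠ 0 := by
  constructor
  · rw [norm_sub_rev]
    refine (norm_log_one_add_sub_self_le (by linarith)).trans ?_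
    have : (1 - ‖u‖)⁻¹ ≤ 2 := by
      rw [inv_le_comm₀ (by linarith) (by norm_num)]
      linarith
    nlinarith [sq_nonneg ‖u‖]
  · intro h
    have : u = -1 := by linear_combination h
    rw [this] at hu
    norm_num at hu

theorem gamma_model (ζ : ℂ) (h0 : 0 ≤ ζ.re) (ht : 1 ≤ ζ.im) :
    ∃ A : ℂ, |A.im| ≤ 4 ∧ ∀ h : ℂ, ‖h‖ ≤ ζ.im / 2 →
      ∃ R : ℂ, ‖R‖ ≤ 4 * ‖h‖ ^ 2 / ζ.im ∧ Gamma (ζ + h) = Gamma ζ * cexp (A * h + R) := by
  have hne : ∀ j : ℕ, ζ + j ≠ 0 := by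
    intro j h
    have := congrArg im h
    simp at this
    linarith
  have hge : ∀ j : ℕ, ζ.im ≤ ‖ζ + j‖ := by
    intro j
    have := im_le_norm (ζ + j)
    simpa using this
  have hsum : Summable fun j : ℕ => 1 / ‖ζ + j‖ ^ 2 := by
    refine summable_of_sum_range_le (c := 4 / ζ.im) (fun j => by positivity) fun n => ?_
    refine le_trans ?_ (sum_inv_sq ζ h0 ht n)
    rw [sum_range_succ]
    have : 0 ≤ 1 / ‖ζ + n‖ ^ 2 := by positivity
    linarith
  let An : ℕ → ℂ := fun n => (Real.log n : ℂ) - ∑ j ∈ range (n + 1), 1 / (ζ + j)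
  let Rn : ℂ → ℕ → ℂ := fun h n => ∑ j ∈ range (n + 1), (h / (ζ + j) - log (1 + h / (ζ + j)))
  have hu : ∀ h : ℂ, ‖h‖ ≤ ζ.im / 2 → ∀ j : ℕ, ‖h / (ζ + j)‖ ≤ 1 / 2 := by
    intro h hh j
    rw [norm_div, div_le_iff₀ (by linarith [hge j])]
    linarith [hge j]
  have hterm : ∀ h : ℂ, ‖h‖ ≤ ζ.im / 2 → ∀ j : ℕ,
      ‖h / (ζ + j) - log (1 + h / (ζ + j))‖ ≤ ‖h‖ ^ 2 * (1 / ‖ζ + j‖ ^ 2) := by
    intro h hh j
    refine (log_aux _ (hu h hh j)).1.trans (le_of_eq ?_)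
    rw [norm_div]
    ring
  have hseq : ∀ h : ℂ, ‖h‖ ≤ ζ.im / 2 → ∀ n : ℕ, 1 ≤ n →
      GammaSeq (ζ + h) n = GammaSeq ζ n * cexp (An n * h + Rn h n) := by
    intro h hh n hn
    have hn0 : (n : ℂ) ≠ 0 := by exact_mod_cast (by omega : n ≠ 0)
    have e1 : An n * h + Rn h n =
        (Real.log n : ℂ) * h - ∑ j ∈ range (n + 1), log (1 + h / (ζ + j)) := by
      simp only [An, Rn, sub_mul, sum_sub_distrib, sum_mul]
      have : ∀ j : ℕ, 1 / (ζ + j) * h = h / (ζ + j) := fun j => by ring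
      simp only [this]
      ring
    have e2 : ∏ j ∈ range (n + 1), (ζ + h + j) =
        (∏ j ∈ range (n + 1), (ζ + j)) * ∏ j ∈ range (n + 1), (1 + h / (ζ + j)) := by
      rw [← prod_mul_distrib]
      refine prod_congr rfl fun j _ => ?_
      have := hne j
      field_simp
      ring
    rw [e1, Complex.exp_sub, Complex.exp_sum,
      prod_congr rfl fun j _ => Complex.exp_log (log_aux _ (hu h hh j)).2, GammaSeq, GammaSeq, e2,
      cpow_add _ _ hn0, cpow_def_of_ne_zero hn0 h, ← natCast_log]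
    ring
  have hRlim : ∀ h : ℂ, ‖h‖ ≤ ζ.im / 2 → ∃ R : ℂ, ‖R‖ ≤ 4 * ‖h‖ ^ 2 / ζ.im ∧
      Tendsto (Rn h) atTop (𝓝 R) := by
    intro h hh
    have hs : Summable fun j : ℕ => h / (ζ + j) - log (1 + h / (ζ + j)) :=
      Summable.of_norm_bounded (hsum.mul_left _) (hterm h hh)
    have hl := hs.hasSum.tendsto_sum_nat.comp (tendsto_add_atTop_nat 1)
    refine ⟨_, le_of_tendsto' hl.norm fun n => ?_, hl⟩
    refine (norm_sum_le _ _).trans ((sum_le_sum fun j _ => hterm h hh j).trans ?_)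
    rw [← mul_sum]
    calc _ ≤ ‖h‖ ^ 2 * (4 / ζ.im) := by gcongr; exact sum_inv_sq ζ h0 ht n
      _ = _ := by ring
  have hG : Gamma ζ ≠ 0 := Gamma_ne_zero fun m h => hne m (by rw [h]; simp)
  have hlim : ∀ h : ℂ, ‖h‖ ≤ ζ.im / 2 → ∀ R : ℂ, Tendsto (Rn h) atTop (𝓝 R) →
      Tendsto (fun n => cexp (An n * h)) atTop (𝓝 (Gamma (ζ + h) / (Gamma ζ * cexp R))) := by
    intro h hh R hR
    have h1 := (GammaSeq_tendsto_Gamma (ζ + h)).div ((GammaSeq_tendsto_Gamma ζ).mul hR.cexp)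
      (mul_ne_zero hG (Complex.exp_ne_zero _))
    refine h1.congr' ?_
    filter_upwards [eventually_ge_atTop 1, (GammaSeq_tendsto_Gamma ζ).eventually_ne hG] with n hn h2
    simp only [Pi.div_apply]
    rw [hseq h hh n hn, Complex.exp_add]
    have := Complex.exp_ne_zero (Rn h n)
    field_simp
  have him : ∀ n, (An n).im = ζ.im * ∑ j ∈ range (n + 1), 1 / ‖ζ + j‖ ^ 2 := by
    intro n
    simp only [An, sub_im, ofReal_im, im_sum, zero_sub, mul_sum, ← sum_neg_distrib]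
    refine sum_congr rfl fun j _ => ?_
    rw [one_div, inv_im, Complex.sq_norm]
    simp
    ring
  have hI : Tendsto (fun n => (An n).im) atTop (𝓝 (ζ.im * ∑' j : ℕ, 1 / ‖ζ + j‖ ^ 2)) := by
    simp only [him]
    exact (hsum.hasSum.tendsto_sum_nat.comp (tendsto_add_atTop_nat 1)).const_mul _
  have hhalf : ‖(1 / 2 : ℂ)‖ ≤ ζ.im / 2 := by simp; linarith
  obtain ⟨R1, -, hR1⟩ := hRlim (1 / 2) hhalf
  have hG2 : Gamma (ζ + 1 / 2) ≠ 0 := Gamma_ne_zero fun m h => by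
    have := congrArg im h
    simp at this
    linarith
  have hRe : Tendsto (fun n => (An n).re) atTop
      (𝓝 (2 * Real.log ‖Gamma (ζ + 1 / 2) / (Gamma ζ * cexp R1)‖)) := by
    have h1 := ((hlim _ hhalf R1 hR1).norm.log (norm_ne_zero_iff.mpr
      (div_ne_zero hG2 (mul_ne_zero hG (Complex.exp_ne_zero _))))).const_mul 2
    refine h1.congr fun n => ?_
    rw [Complex.norm_exp, Real.log_exp]
    simp
    ring
  let A : ℂ := ⟨2 * Real.log ‖Gamma (ζ + 1 / 2) / (Gamma ζ * cexp R1)‖,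
    ζ.im * ∑' j : ℕ, 1 / ‖ζ + j‖ ^ 2⟩
  have hA : Tendsto An atTop (𝓝 A) := by
    have := (hRe.ofReal).add (hI.ofReal.mul_const I)
    simp only [re_add_im] at this
    convert this using 2
    apply Complex.ext <;> simp [A]
  refine ⟨A, ?_, fun h hh => ?_⟩
  · refine le_of_tendsto' hI.abs fun n => ?_
    rw [him, abs_of_nonneg (by positivity)]
    calc _ ≤ ζ.im * (4 / ζ.im) := by gcongr; exact sum_inv_sq ζ h0 ht n
      _ = 4 := by field_simp
  · obtain ⟨R, hR, hR'⟩ := hRlim h hh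
    refine ⟨R, hR, ?_⟩
    have := tendsto_nhds_unique (hlim h hh R hR') (hA.mul_const h).cexp
    rw [Complex.exp_add, ← this]
    have := Complex.exp_ne_zero R
    field_simp

theorem norm_Gamma_le (s : ℂ) (hs : 0 < s.re) : ‖Gamma s‖ ≤ Real.Gamma s.re := by
  refine le_of_tendsto_of_tendsto (GammaSeq_tendsto_Gamma s).norm
    (Real.GammaSeq_tendsto_Gamma s.re) ?_
  filter_upwards [eventually_ge_atTop 1] with n hn
  rw [GammaSeq, Real.GammaSeq, norm_div, norm_mul, norm_natCast_cpow_of_pos (by omega),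
    norm_natCast, norm_prod]
  gcongr with j
  have := re_le_norm (s + j)
  simpa using this

theorem realGamma_le (x : ℝ) (hx : 2 ≤ x) : Real.Gamma x ≤ Real.exp ((x + 1) ^ 2) := by
  have h1 : Real.Gamma x ≤ Real.Gamma (⌈x⌉₊ + 1) :=
    Real.Gamma_strictMonoOn_Ici.monotoneOn hx
      (show (2 : ℝ) ≤ ⌈x⌉₊ + 1 by linarith [Nat.le_ceil x]) (by linarith [Nat.le_ceil x])
  rw [Real.Gamma_nat_eq_factorial] at h1
  refine h1.trans ?_
  have h2 : ((⌈x⌉₊).factorial : ℝ) ≤ (⌈x⌉₊ : ℝ) ^ ⌈x⌉₊ := by exact_mod_cast Nat.factorial_le_pow _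
  have h3 : (⌈x⌉₊ : ℝ) ≤ x + 1 := (Nat.ceil_lt_add_one (by linarith)).le
  calc _ ≤ (⌈x⌉₊ : ℝ) ^ ⌈x⌉₊ := h2
    _ ≤ Real.exp (x + 1) ^ ⌈x⌉₊ := by gcongr; linarith [Real.add_one_le_exp (x + 1)]
    _ = Real.exp (⌈x⌉₊ * (x + 1)) := by rw [Real.exp_nat_mul]
    _ ≤ _ := by gcongr; nlinarith

theorem norm_sin_le (w : ℂ) : ‖Complex.sin w‖ ≤ Real.exp |w.im| := by
  rw [Complex.sin, norm_div, norm_mul, norm_I, mul_one]
  have h1 : ‖cexp (-w * I)‖ ≤ Real.exp |w.im| := by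
    rw [Complex.norm_exp]
    gcongr
    simpa using le_abs_self _
  have h2 : ‖cexp (w * I)‖ ≤ Real.exp |w.im| := by
    rw [Complex.norm_exp]
    gcongr
    simpa using neg_le_abs _
  have := norm_sub_le (cexp (-w * I)) (cexp (w * I))
  simp only [norm_ofNat]
  linarith

theorem Gamma_quarter (t : ℝ) : Real.exp (-(4 * |t|)) ≤ ‖Gamma (1 / 4 + t * I)‖ := by
  have h := congrArg norm (Gamma_mul_Gamma_one_sub (1 / 4 + t * I))
  rw [norm_mul, norm_div, norm_real, Real.norm_eq_abs, abs_of_pos Real.pi_pos] at h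
  have h1 : ‖Gamma (1 - (1 / 4 + t * I))‖ ≤ 2 := by
    refine (norm_Gamma_le _ (by simp; norm_num)).trans ?_
    have e : (1 - (1 / 4 + t * I) : ℂ).re = 3 / 4 := by simp; norm_num
    rw [e]
    have a1 := Real.Gamma_add_one (s := 3 / 4) (by norm_num)
    have a2 := Real.convexOn_Gamma.2 (show (1 : ℝ) ∈ Set.Ioi 0 by norm_num)
      (show (2 : ℝ) ∈ Set.Ioi 0 by norm_num) (show (0 : ℝ) ≤ 1 / 4 by norm_num)
      (show (0 : ℝ) ≤ 3 / 4 by norm_num) (by norm_num)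
    simp only [smul_eq_mul, Real.Gamma_one, Real.Gamma_two] at a2
    norm_num at a1 a2
    linarith
  have h2 : ‖Complex.sin (Real.pi * (1 / 4 + t * I))‖ ≤ Real.exp (4 * |t|) := by
    refine (norm_sin_le _).trans ?_
    gcongr
    simp only [mul_im, ofReal_re, add_im, ofReal_im, zero_mul, add_zero, I_im, mul_one, I_re]
    simp only [one_div, inv_im, im_ofNat, neg_zero, zero_div, zero_add, abs_mul,
      abs_of_pos Real.pi_pos]
    gcongr
    exact Real.pi_le_four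
  have hG1 : Gamma (1 / 4 + t * I) ≠ 0 := Gamma_ne_zero_of_re_pos (by simp)
  have hG2 : Gamma (1 - (1 / 4 + t * I)) ≠ 0 := Gamma_ne_zero_of_re_pos (by simp; norm_num)
  have h3 : 0 < ‖Complex.sin (Real.pi * (1 / 4 + t * I))‖ := by
    rcases (norm_nonneg (Complex.sin (Real.pi * (1 / 4 + t * I)))).eq_or_lt with h4 | h4
    · rw [← h4, div_zero] at h
      exact absurd h (mul_ne_zero (norm_ne_zero_iff.mpr hG1) (norm_ne_zero_iff.mpr hG2))
    · exact h4
  rw [eq_div_iff h3.ne'] at h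
  rw [Real.exp_neg, inv_le_iff_one_le_mul₀ (Real.exp_pos _)]
  have h5 : Real.pi ≤ ‖Gamma (1 / 4 + t * I)‖ * 2 * Real.exp (4 * |t|) := by
    rw [← h]
    gcongr
  nlinarith [Real.pi_gt_three]

/-- the gamma factor -/
noncomputable def gam (s : ℂ) : ℂ :=
  (s - 1) * cexp (-(s / 2) * Real.log Real.pi) * Gamma (s / 2 + 1)

theorem log_pi_bounds : 1 ≤ Real.log Real.pi ∧ Real.log Real.pi ≤ 2 := by
  constructor
  · rw [Real.le_log_iff_exp_le Real.pi_pos]
    linarith [Real.exp_one_lt_d9, Real.pi_gt_three]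
  · rw [Real.log_le_iff_le_exp Real.pi_pos]
    have := Real.quadratic_le_exp_of_nonneg (x := 2) (by norm_num)
    linarith [Real.pi_le_four]

theorem gam_upper (s : ℂ) (hs : 2 ≤ s.re) : ‖gam s‖ ≤ ‖s - 1‖ * Real.exp ((s.re + 2) ^ 2) := by
  rw [gam, norm_mul, norm_mul, mul_assoc]
  gcongr
  have h1 : ‖cexp (-(s / 2) * Real.log Real.pi)‖ ≤ 1 := by
    rw [Complex.norm_exp, Real.exp_le_one_iff]
    simp
    nlinarith [log_pi_bounds.1]
  have e : (s / 2 + 1).re = s.re / 2 + 1 := by simp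
  have h2 := (norm_Gamma_le (s / 2 + 1) (by rw [e]; linarith)).trans
    (realGamma_le _ (by rw [e]; linarith))
  rw [e] at h2
  calc _ ≤ 1 * Real.exp ((s.re / 2 + 1 + 1) ^ 2) := by gcongr
    _ ≤ _ := by rw [one_mul, Real.exp_le_exp]; nlinarith

theorem gam_lower (X : ℝ) (hX : 4 ≤ X) : Real.exp (-(3 * X)) ≤ ‖gam (1 / 2 + X * I)‖ := by
  have e1 : (1 / 2 + X * I : ℂ) / 2 = 1 / 4 + (X / 2 : ℝ) * I := by push_cast; ring
  have hne : (1 / 4 + (X / 2 : ℝ) * I : ℂ) ≠ 0 := by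
    intro h
    have := congrArg re h
    simp at this
  rw [gam, e1, Gamma_add_one _ hne, norm_mul, norm_mul, norm_mul, Complex.norm_exp]
  have a1 : 1 ≤ ‖(1 / 2 + X * I : ℂ) - 1‖ := le_trans (by simp; linarith) (im_le_norm _)
  have a2 : 1 ≤ ‖(1 / 4 + (X / 2 : ℝ) * I : ℂ)‖ := le_trans (by simp; linarith) (im_le_norm _)
  have a3 := Gamma_quarter (X / 2)
  rw [abs_of_pos (by linarith)] at a3
  have a4 : -X ≤ (-(1 / 4 + (X / 2 : ℝ) * I : ℂ) * Real.log Real.pi).re := by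
    simp
    linarith [log_pi_bounds.2]
  calc Real.exp (-(3 * X)) = 1 * Real.exp (-X) * (1 * Real.exp (-(4 * (X / 2)))) := by
        rw [one_mul, one_mul, ← Real.exp_add]; congr 1; ring
    _ ≤ _ := by gcongr

theorem gam_model (X : ℝ) (hX : 20 ≤ X) :
    ∃ B : ℂ, |B.im| ≤ 3 ∧ Real.log X / 2 - 2 ≤ B.re ∧ B.re ≤ Real.log X / 2 ∧
      ∀ k : ℂ, ‖k‖ ≤ X / 2 → ∃ R : ℂ, ‖R‖ ≤ 3 * ‖k‖ ^ 2 / X ∧
        gam (1 / 2 + X * I + k) = gam (1 / 2 + X * I) * cexp (B * k + R) := by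
  set s0 : ℂ := 1 / 2 + X * I with hs0
  have hre : (s0 / 2 + 1).re = 5 / 4 := by simp [hs0]; norm_num
  have him : (s0 / 2 + 1).im = X / 2 := by simp [hs0]
  obtain ⟨A, hA, hmod⟩ := gamma_model (s0 / 2 + 1) (by rw [hre]; norm_num) (by rw [him]; linarith)
  rw [him] at hmod
  have n1 : X ≤ ‖s0 - 1‖ := le_trans (by simp [hs0]) (im_le_norm _)
  have hne : s0 - 1 ≠ 0 := norm_pos_iff.mp (by linarith)
  have n2 : ‖1 / (s0 - 1)‖ ≤ 1 / 20 := by
    rw [norm_div, norm_one]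
    gcongr
    linarith
  have hz : s0 / 2 + 1 ≠ 0 := by
    intro h
    rw [h] at hre
    norm_num at hre
  have hAre : Real.log X - 1.2 ≤ A.re ∧ A.re ≤ Real.log X + 0.4 := by
    obtain ⟨R, hR, e⟩ := hmod 1 (by simp; linarith)
    have hG : Gamma (s0 / 2 + 1) ≠ 0 := Gamma_ne_zero_of_re_pos (by rw [hre]; norm_num)
    rw [Gamma_add_one _ hz, mul_comm] at e
    have e2 := congrArg norm (mul_left_cancel₀ hG e)
    rw [Complex.norm_exp] at e2
    have e3 : Real.log ‖s0 / 2 + 1‖ = A.re + R.re := by rw [e2, Real.log_exp]; simp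
    have b1 : |R.re| ≤ 0.4 := by
      refine (abs_re_le_norm R).trans (hR.trans ?_)
      rw [norm_one, div_le_iff₀ (by linarith)]
      linarith
    have b2 : X / 2 ≤ ‖s0 / 2 + 1‖ := by rw [← him]; exact im_le_norm _
    have b3 : ‖s0 / 2 + 1‖ ≤ X := by
      refine (norm_le_abs_re_add_abs_im _).trans ?_
      rw [hre, him, abs_of_pos (by norm_num), abs_of_pos (by linarith)]
      linarith
    have b4 := Real.log_le_log (by linarith) b2
    have b5 := Real.log_le_log (by linarith) b3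
    rw [Real.log_div (by linarith) (by norm_num)] at b4
    have := Real.log_two_lt_d9
    obtain ⟨c1, c2⟩ := abs_le.mp b1
    constructor <;> linarith
  obtain ⟨c1, c2⟩ := abs_le.mp ((abs_re_le_norm _).trans n2)
  obtain ⟨c3, c4⟩ := abs_le.mp ((abs_im_le_norm _).trans n2)
  obtain ⟨c5, c6⟩ := abs_le.mp hA
  obtain ⟨p1, p2⟩ := log_pi_bounds
  refine ⟨A / 2 - Real.log Real.pi / 2 + 1 / (s0 - 1), ?_, ?_, ?_, fun k hk => ?_⟩
  · simp only [add_im, sub_im, div_ofNat_im, ofReal_im]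
    rw [abs_le]
    constructor <;> linarith
  · simp only [add_re, sub_re, div_ofNat_re, ofReal_re]
    linarith [hAre.1]
  · simp only [add_re, sub_re, div_ofNat_re, ofReal_re]
    linarith [hAre.2]
  · obtain ⟨R, hR, e⟩ := hmod (k / 2) (by rw [norm_div]; simp; linarith)
    have hu : ‖k / (s0 - 1)‖ ≤ 1 / 2 := by
      rw [norm_div, div_le_iff₀ (by linarith)]
      linarith
    obtain ⟨l1, l2⟩ := log_aux _ hu
    refine ⟨R - (k / (s0 - 1) - log (1 + k / (s0 - 1))), ?_, ?_⟩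
    · refine (norm_sub_le _ _).trans ?_
      have d1 : ‖R‖ ≤ 2 * ‖k‖ ^ 2 / X := hR.trans (le_of_eq (by rw [norm_div]; simp; ring))
      have d2 : ‖k / (s0 - 1)‖ ^ 2 ≤ ‖k‖ ^ 2 / X := by
        rw [norm_div, div_pow]
        gcongr
        nlinarith
      have : 3 * ‖k‖ ^ 2 / X = 2 * ‖k‖ ^ 2 / X + ‖k‖ ^ 2 / X := by ring
      linarith
    · have e1 : (s0 + k) / 2 + 1 = s0 / 2 + 1 + k / 2 := by ring
      have e2 : s0 + k - 1 = (s0 - 1) * cexp (log (1 + k / (s0 - 1))) := by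
        rw [Complex.exp_log l2]
        field_simp
        ring
      rw [gam, gam, e1, e, e2]
      have e3 : cexp ((A / 2 - Real.log Real.pi / 2 + 1 / (s0 - 1)) * k +
          (R - (k / (s0 - 1) - log (1 + k / (s0 - 1))))) =
          cexp (log (1 + k / (s0 - 1))) * cexp (-(k / 2) * Real.log Real.pi) *
            cexp (A * (k / 2) + R) := by
        rw [← Complex.exp_add, ← Complex.exp_add]
        congr 1
        ring
      have e4 : cexp (-((s0 + k) / 2) * Real.log Real.pi) =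
          cexp (-(s0 / 2) * Real.log Real.pi) * cexp (-(k / 2) * Real.log Real.pi) := by
        rw [← Complex.exp_add]
        congr 1
        ring
      rw [e3, e4]
      ring

end Pool.Agent.H.MP_023270_nt
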