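import Mathlib
import Pool.Agent.H.MP_023270_nt.Defs
import Pool.Agent.H.MP_023270_nt.Gam

set_option autoImplicit false

namespace Pool.Agent.H.MP_023270_nt

open Complex Filter Topology MeasureTheory Set

theorem integrable_tsum' {F : ℕ → ℝ → ℂ} (hm : ∀ i, Measurable (F i))
    (hF : ∀ i, Integrable (F i)) (hs : Summable fun i => ∫ a, ‖F i a‖) :
    Integrable fun a => ∑' i, F i a := by
  refine ⟨(Measurable.tsum hm).aestronglyMeasurable, ?_⟩
  calc ∫⁻ a, ‖∑' i, F i a‖ₑ ≤ ∫⁻ a, ∑' i, ‖F i a‖ₑ := lintegral_mono fun a => enorm_tsum_le_tsum_enorm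
    _ = ∑' i, ∫⁻ a, ‖F i a‖ₑ := lintegral_tsum fun i => (hm i).enorm.aemeasurable
    _ = ∑' i, ENNReal.ofReal (∫ a, ‖F i a‖) := by
        congr 1
        funext i
        rw [ofReal_integral_norm_eq_lintegral_enorm (hF i)]
    _ < ⊤ := by
        rw [← ENNReal.ofReal_tsum_of_nonneg (fun i => integral_nonneg fun a => norm_nonneg _) hs]
        exact ENNReal.ofReal_lt_top

/-- basic kernel -/
noncomputable def KK (a : ℂ) (c : ℝ) (t : ℝ) : ℂ := cexp (a * t - c * Real.exp (2 * t))

theorem KK_integral (a : ℂ) (ha : 0 < a.re) (c : ℝ) (hc : 0 < c) :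
    ∫ t, KK a c t = 1 / 2 * cexp (-(a / 2) * Real.log c) * Gamma (a / 2) := by
  have h1 := integral_cpow_mul_exp_neg_mul_Ioi (a := a / 2) (r := c) (by simpa using ha) hc
  have himg : (fun t : ℝ => Real.exp (2 * t)) '' univ = Ioi 0 := by
    ext u
    simp only [image_univ, mem_range, mem_Ioi]
    constructor
    · rintro ⟨t, rfl⟩
      exact Real.exp_pos _
    · intro hu
      exact ⟨Real.log u / 2, by rw [mul_div_cancel₀ _ (by norm_num), Real.exp_log hu]⟩
  rw [← himg, integral_image_eq_integral_abs_deriv_smul (f' := fun t => Real.exp (2 * t) * 2)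
    MeasurableSet.univ (fun t _ => by
      have := ((hasDerivAt_id t).const_mul 2).exp
      simp only [id, mul_one] at this
      exact this.hasDerivWithinAt)
    (fun x _ y _ h => by simpa using h), Measure.restrict_univ] at h1
  have e : ∀ t : ℝ, |Real.exp (2 * t) * 2| • (((Real.exp (2 * t) : ℝ) : ℂ) ^ (a / 2 - 1) *
      cexp (-(c * (Real.exp (2 * t) : ℝ)))) = 2 * KK a c t := by
    intro t
    rw [abs_of_pos (by positivity), real_smul,
      cpow_def_of_ne_zero (by exact_mod_cast (Real.exp_pos _).ne'),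
      ← ofReal_log (Real.exp_pos _).le, Real.log_exp, KK, ofReal_mul, ofReal_exp (2 * t),
      mul_comm (cexp _) _, mul_assoc, ← Complex.exp_add, ← Complex.exp_add]
    push_cast
    congr 2
    ring
  simp only [e] at h1
  rw [integral_const_mul, cpow_def_of_ne_zero (by simpa using hc.ne'), one_div,
    ← ofReal_inv, ← ofReal_log (by positivity), Real.log_inv] at h1
  have e2 : ((-Real.log c : ℝ) : ℂ) * (a / 2) = -(a / 2) * Real.log c := by push_cast; ring
  rw [e2] at h1
  linear_combination h1 / 2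

theorem KK_integrable (a : ℂ) (ha : 0 < a.re) (c : ℝ) (hc : 0 < c) : Integrable (KK a c) := by
  apply Integrable.of_integral_ne_zero
  rw [KK_integral a ha c hc]
  exact mul_ne_zero (mul_ne_zero (by norm_num) (Complex.exp_ne_zero _))
    (Gamma_ne_zero_of_re_pos (by simpa using ha))

theorem KK_norm (a : ℂ) (ha : 0 < a.re) (c : ℝ) (hc : 0 < c) :
    ∫ t, ‖KK a c t‖ = 1 / 2 * Real.exp (-(a.re / 2) * Real.log c) * Real.Gamma (a.re / 2) := by
  have h := KK_integral (a.re : ℂ) (by simpa using ha) c hc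
  have e : ∀ t, KK (a.re : ℂ) c t = ((‖KK a c t‖ : ℝ) : ℂ) := by
    intro t
    rw [KK, KK, Complex.norm_exp]
    generalize Real.exp (2 * t) = u
    rw [ofReal_exp]
    congr 1
    apply Complex.ext <;> simp
  simp only [e] at h
  rw [integral_complex_ofReal] at h
  apply ofReal_injective
  refine h.trans ?_
  push_cast
  rw [← Gamma_ofReal]
  push_cast
  rfl

/-- logarithm of the successor -/
noncomputable def Lg (n : ℕ) : ℝ := Real.log (n + 1)

theorem Lg_nonneg (n : ℕ) : 0 ≤ Lg n := Real.log_nonneg (by linarith [Nat.cast_nonneg (α := ℝ) n])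

theorem exp_Lg (n : ℕ) : Real.exp (Lg n) = n + 1 := Real.exp_log (by positivity)

theorem exp_Lg2 (n : ℕ) : Real.exp (-(2 * Lg n)) = 1 / ((n : ℝ) + 1) ^ 2 := by
  rw [Real.exp_neg, show 2 * Lg n = (2 : ℕ) * Lg n by norm_num, Real.exp_nat_mul, exp_Lg, one_div]

theorem summable_Lg2 : Summable fun n : ℕ => Real.exp (-(2 * Lg n)) := by
  simp only [exp_Lg2]
  have := (summable_nat_add_iff 1).mpr (Real.summable_one_div_nat_pow.mpr (by norm_num : 1 < 2))
  simpa using this

theorem tsum_Lg2_tail : ∑' n : ℕ, Real.exp (-(2 * Lg (n + 1))) ≤ 1 := by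
  refine Real.tsum_le_of_sum_range_le (fun n => (Real.exp_pos _).le) fun n => ?_
  have := tele 1 one_pos n
  simp only [exp_Lg2]
  push_cast
  simp only [add_comm (1 : ℝ)] at this
  simpa using this

theorem tsum_Lg2 : ∑' n : ℕ, Real.exp (-(2 * Lg n)) ≤ 2 := by
  rw [summable_Lg2.tsum_eq_zero_add]
  have := tsum_Lg2_tail
  simp only [Lg, Nat.cast_zero, zero_add, Real.log_one, mul_zero, neg_zero, Real.exp_zero] at this ⊢
  linarith

/-- the terms of the Mellin transform -/
noncomputable def trm (s : ℂ) (n : ℕ) (t : ℝ) : ℂ :=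
  4 * (Real.pi * ((n : ℝ) + 1) ^ 2 : ℝ) ^ 2 * KK (s + 4) (Real.pi * ((n : ℝ) + 1) ^ 2) t -
    6 * (Real.pi * ((n : ℝ) + 1) ^ 2 : ℝ) * KK (s + 2) (Real.pi * ((n : ℝ) + 1) ^ 2) t

theorem Phi_mul (s : ℂ) (t : ℝ) : (Phi t : ℂ) * cexp ((s - 1 / 2) * t) = ∑' n, trm s n t := by
  rw [Phi, ofReal_mul, ofReal_tsum, ← tsum_mul_left, ← tsum_mul_right]
  congr 1
  funext n
  simp only [trm, KK, Complex.exp_sub, add_mul, sub_mul, Complex.exp_add]
  push_cast
  have e1 : cexp (9 * t / 2) = cexp (4 * t) * cexp (1 / 2 * t) := by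
    rw [← Complex.exp_add]; congr 1; ring
  have e2 : cexp (5 * t / 2) = cexp (2 * t) * cexp (1 / 2 * t) := by
    rw [← Complex.exp_add]; congr 1; ring
  rw [e1, e2, Complex.exp_neg]
  have := Complex.exp_ne_zero (1 / 2 * t)
  field_simp
  ring

theorem log_c (n : ℕ) : Real.log (Real.pi * ((n : ℝ) + 1) ^ 2) = Real.log Real.pi + 2 * Lg n := by
  rw [Real.log_mul Real.pi_ne_zero (by positivity), Real.log_pow, Lg]
  norm_num

theorem trm_integrable (s : ℂ) (hs : 2 ≤ s.re) (n : ℕ) : Integrable (trm s n) :=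
  ((KK_integrable _ (by simp; linarith) _ (by positivity)).const_mul _).sub
    ((KK_integrable _ (by simp; linarith) _ (by positivity)).const_mul _)

theorem trm_integral (s : ℂ) (hs : 2 ≤ s.re) (n : ℕ) :
    ∫ t, trm s n t = gam s * cexp (-s * Lg n) := by
  have hc : 0 < Real.pi * ((n : ℝ) + 1) ^ 2 := by positivity
  unfold trm
  rw [integral_sub ((KK_integrable _ (by simp; linarith) _ hc).const_mul _)
    ((KK_integrable _ (by simp; linarith) _ hc).const_mul _), integral_const_mul,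
    integral_const_mul, KK_integral _ (by simp; linarith) _ hc,
    KK_integral _ (by simp; linarith) _ hc]
  set c := Real.pi * ((n : ℝ) + 1) ^ 2 with hcd
  have e0 : (c : ℂ) = cexp (Real.log c) := by rw [← ofReal_exp, Real.exp_log hc]
  have e1 : (c : ℂ) * cexp (-((s + 2) / 2) * Real.log c) = cexp (-(s / 2) * Real.log c) := by
    conv_lhs => rw [e0]
    rw [← Complex.exp_add]
    congr 1
    ring
  have e2 : (c : ℂ) ^ 2 * cexp (-((s + 4) / 2) * Real.log c) = cexp (-(s / 2) * Real.log c) := by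
    conv_lhs => rw [e0]
    rw [← Complex.exp_nat_mul, ← Complex.exp_add]
    congr 1
    push_cast
    ring
  have e3 : cexp (-(s / 2) * Real.log c) =
      cexp (-(s / 2) * Real.log Real.pi) * cexp (-s * Lg n) := by
    rw [← Complex.exp_add, hcd, log_c]
    congr 1
    push_cast
    ring
  have hz : s / 2 + 1 ≠ 0 := by
    intro h
    have := congrArg re h
    simp at this
    linarith
  have e4 : Gamma ((s + 4) / 2) = (s / 2 + 1) * Gamma (s / 2 + 1) := by
    rw [← Gamma_add_one _ hz]; congr 1; ring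
  have e5 : Gamma ((s + 2) / 2) = Gamma (s / 2 + 1) := by congr 1; ring
  rw [e4, e5, gam]
  linear_combination (2 * (s / 2 + 1) * Gamma (s / 2 + 1)) * e2 - 3 * Gamma (s / 2 + 1) * e1 +
    (s - 1) * Gamma (s / 2 + 1) * e3

theorem trm_summable (s : ℂ) (hs : 2 ≤ s.re) : Summable fun n => ∫ t, ‖trm s n t‖ := by
  refine Summable.of_nonneg_of_le (fun n => integral_nonneg fun t => norm_nonneg _) (fun n => ?_)
    (summable_Lg2.mul_left (2 * Real.Gamma ((s.re + 4) / 2) + 3 * Real.Gamma ((s.re + 2) / 2)))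
  have hc : 0 < Real.pi * ((n : ℝ) + 1) ^ 2 := by positivity
  set c := Real.pi * ((n : ℝ) + 1) ^ 2 with hcd
  have i1 := (KK_integrable (s + 4) (by simp; linarith) _ hc).norm.const_mul (4 * c ^ 2)
  have i2 := (KK_integrable (s + 2) (by simp; linarith) _ hc).norm.const_mul (6 * c)
  have h1 : ∫ t, ‖trm s n t‖ ≤ ∫ t, (4 * c ^ 2 * ‖KK (s + 4) c t‖ + 6 * c * ‖KK (s + 2) c t‖) := by
    refine integral_mono (trm_integrable s hs n).norm (i1.add i2) fun t => ?_
    refine (norm_sub_le _ _).trans (le_of_eq ?_)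
    simp only [norm_mul, norm_pow, norm_ofNat, norm_real, Real.norm_eq_abs, ← hcd, abs_of_pos hc]
  rw [integral_add i1 i2, integral_const_mul, integral_const_mul,
    KK_norm _ (by simp; linarith) _ hc, KK_norm _ (by simp; linarith) _ hc] at h1
  simp only [add_re, re_ofNat] at h1
  have e1 : c * Real.exp (-((s.re + 2) / 2) * Real.log c) = Real.exp (-(s.re / 2) * Real.log c) := by
    conv_lhs => rw [← Real.exp_log hc]
    rw [← Real.exp_add, Real.log_exp]
    congr 1
    ring
  have e2 : c ^ 2 * Real.exp (-((s.re + 4) / 2) * Real.log c) =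
      Real.exp (-(s.re / 2) * Real.log c) := by
    conv_lhs => rw [← Real.exp_log hc]
    rw [← Real.exp_nat_mul, ← Real.exp_add, Real.log_exp]
    congr 1
    push_cast
    ring
  have e3 : Real.exp (-(s.re / 2) * Real.log c) ≤ Real.exp (-(2 * Lg n)) := by
    rw [Real.exp_le_exp, hcd, log_c]
    nlinarith [log_pi_bounds.1, Lg_nonneg n]
  have g1 := Real.Gamma_pos_of_pos (s := (s.re + 4) / 2) (by linarith)
  have g2 := Real.Gamma_pos_of_pos (s := (s.re + 2) / 2) (by linarith)
  refine h1.trans ?_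
  calc _ = (2 * Real.Gamma ((s.re + 4) / 2) + 3 * Real.Gamma ((s.re + 2) / 2)) *
        Real.exp (-(s.re / 2) * Real.log c) := by
        linear_combination (2 * Real.Gamma ((s.re + 4) / 2)) * e2 +
          3 * Real.Gamma ((s.re + 2) / 2) * e1
    _ ≤ _ := by gcongr

theorem Phi_measurable : Measurable Phi := by
  unfold Phi
  refine Measurable.const_mul (Measurable.tsum fun n => ?_) _
  fun_prop

theorem Phi_integrable (s : ℂ) (hs : 2 ≤ s.re) :
    Integrable fun t : ℝ => (Phi t : ℂ) * cexp ((s - 1 / 2) * t) := by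
  simp only [Phi_mul]
  refine integrable_tsum' (fun n => ?_) (trm_integrable s hs) (trm_summable s hs)
  unfold trm KK
  fun_prop

/-- the zeta series -/
noncomputable def Zs (s : ℂ) : ℂ := ∑' n : ℕ, cexp (-s * Lg n)

theorem Zs_term (s : ℂ) (hs : 2 ≤ s.re) (n : ℕ) : ‖cexp (-s * Lg n)‖ ≤ Real.exp (-(2 * Lg n)) := by
  rw [Complex.norm_exp, Real.exp_le_exp]
  simp
  nlinarith [Lg_nonneg n]

theorem Zs_norm (s : ℂ) (hs : 2 ≤ s.re) : ‖Zs s‖ ≤ 2 :=
  (tsum_of_norm_bounded summable_Lg2.hasSum (Zs_term s hs)).trans tsum_Lg2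

theorem Phi_integral (s : ℂ) (hs : 2 ≤ s.re) :
    ∫ t : ℝ, (Phi t : ℂ) * cexp ((s - 1 / 2) * t) = gam s * Zs s := by
  simp only [Phi_mul]
  rw [← integral_tsum_of_summable_integral_norm (trm_integrable s hs) (trm_summable s hs), Zs,
    ← tsum_mul_left]
  congr 1
  funext n
  exact trm_integral s hs n

/-- the Gaussian constant -/
noncomputable def c2 : ℝ := Real.sqrt (2 * Real.pi)

theorem c2_pos : 0 < c2 := Real.sqrt_pos.mpr (by positivity)

theorem gauss (κ : ℝ) (a : ℂ) :
    ∫ v : ℝ, cexp (-(v + κ * I) ^ 2 / 2 + I * (v + κ * I) * a) = c2 * cexp (-a ^ 2 / 2) := by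
  have h := integral_cexp_quadratic (b := -1 / 2) (by norm_num) (-κ * I + I * a)
    (κ ^ 2 / 2 - κ * a)
  have e : ∀ v : ℝ, -(v + κ * I) ^ 2 / 2 + I * (v + κ * I) * a =
      -1 / 2 * (v : ℂ) ^ 2 + (-κ * I + I * a) * v + (κ ^ 2 / 2 - κ * a) := by
    intro v
    linear_combination (-(κ : ℂ) ^ 2 / 2 + κ * a) * I_sq
  simp only [e]
  rw [h]
  congr 1
  · rw [c2, Real.sqrt_eq_rpow, ofReal_cpow (by positivity)]
    push_cast
    congr 1
    ring
  · congr 1
    linear_combination ((κ : ℂ) - a) ^ 2 / 2 * I_sq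

theorem gauss_integrable (κ : ℝ) (a : ℂ) :
    Integrable fun v : ℝ => cexp (-(v + κ * I) ^ 2 / 2 + I * (v + κ * I) * a) := by
  apply Integrable.of_integral_ne_zero
  rw [gauss]
  exact mul_ne_zero (by exact_mod_cast c2_pos.ne') (Complex.exp_ne_zero _)

/-- the function under study -/
noncomputable def ff : ℂ → ℂ := Xi (-1 / 2)

theorem ff_eq (z : ℂ) : ff z = ∫ t : ℝ, (Phi t : ℂ) * cexp (-(t : ℂ) ^ 2 / 2 + I * z * t) := by
  unfold ff Xi
  congr 1
  funext t
  rw [Complex.exp_add]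
  push_cast
  rw [mul_assoc]
  congr 3
  ring

theorem rep (z : ℂ) (κ : ℝ) (hκ : 2 ≤ 1 / 2 - z.im - κ) :
    Integrable (fun v : ℝ => cexp (-(v + κ * I) ^ 2 / 2) *
      (gam (1 / 2 + I * (z + (v + κ * I))) * Zs (1 / 2 + I * (z + (v + κ * I))))) ∧
    c2 * ff z = ∫ v : ℝ, cexp (-(v + κ * I) ^ 2 / 2) *
      (gam (1 / 2 + I * (z + (v + κ * I))) * Zs (1 / 2 + I * (z + (v + κ * I)))) := by
  have hre : ∀ v : ℝ, 2 ≤ (1 / 2 + I * (z + (v + κ * I))).re := by
    intro v
    simp
    linarith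
  let F : ℝ → ℝ → ℂ := fun t v => (Phi t : ℂ) * cexp (I * z * t) *
    cexp (-(v + κ * I) ^ 2 / 2 + I * (v + κ * I) * t)
  have hF : Integrable (Function.uncurry F) (volume.prod volume) := by
    have i1 := (Phi_integrable (1 / 2 + I * (z + ((0 : ℝ) + κ * I))) (hre 0)).mul_prod
      (gauss_integrable κ 0)
    refine i1.mono ?_ (Eventually.of_forall fun p => le_of_eq ?_)
    · have := Phi_measurable
      apply Measurable.aestronglyMeasurable
      unfold F Function.uncurry
      fun_prop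
    · simp only [F, Function.uncurry, norm_mul, Complex.norm_exp, mul_assoc, ← Real.exp_add]
      congr 2
      simp [pow_two]
      ring
  have e : ∀ v : ℝ, ∫ t, F t v = cexp (-(v + κ * I) ^ 2 / 2) *
      (gam (1 / 2 + I * (z + (v + κ * I))) * Zs (1 / 2 + I * (z + (v + κ * I)))) := by
    intro v
    rw [← Phi_integral _ (hre v), ← integral_const_mul]
    congr 1
    funext t
    simp only [F]
    rw [mul_left_comm, mul_assoc, ← Complex.exp_add, ← Complex.exp_add]
    congr 2
    ring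
  constructor
  · simp only [← e]
    exact hF.integral_prod_right
  · simp only [← e]
    rw [← integral_integral_swap hF, ff_eq, ← integral_const_mul]
    congr 1
    funext t
    simp only [F]
    rw [integral_const_mul, gauss, Complex.exp_add]
    ring

/-- the dominating integral -/
noncomputable def C0 : ℝ := ∫ t : ℝ, ‖(Phi t : ℂ) * cexp (((5 / 2 : ℂ) - 1 / 2) * t)‖

theorem dom (Y : ℝ) (z : ℂ) (hz : |z.im| ≤ Y) (t : ℝ) :
    Real.exp |t| * ‖(Phi t : ℂ) * cexp (-(t : ℂ) ^ 2 / 2 + I * z * t)‖ ≤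
      Real.exp ((Y + 3) ^ 2 / 2) * ‖(Phi t : ℂ) * cexp (((5 / 2 : ℂ) - 1 / 2) * t)‖ := by
  rw [norm_mul, norm_mul, Complex.norm_exp, Complex.norm_exp, mul_left_comm, mul_left_comm
    (Real.exp _), ← Real.exp_add, ← Real.exp_add]
  refine mul_le_mul_of_nonneg_left (Real.exp_le_exp.mpr ?_) (norm_nonneg _)
  have e1 : (-(t : ℂ) ^ 2 / 2 + I * z * t).re = -t ^ 2 / 2 - z.im * t := by
    simp [pow_two]
    ring
  have e2 : (((5 / 2 : ℂ) - 1 / 2) * t).re = 2 * t := by simp; norm_num
  rw [e1, e2]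
  have h1 : -(z.im * t) ≤ Y * |t| := by
    refine (neg_le_abs _).trans ?_
    rw [abs_mul]
    gcongr
  have h2 := neg_abs_le t
  nlinarith [sq_abs t, sq_nonneg (|t| - (Y + 3))]

theorem dom_integrable : Integrable fun t : ℝ => ‖(Phi t : ℂ) * cexp (((5 / 2 : ℂ) - 1 / 2) * t)‖ :=
  (Phi_integrable (5 / 2) (by norm_num)).norm

theorem ff_bound (z : ℂ) : ‖ff z‖ ≤ Real.exp ((|z.im| + 3) ^ 2 / 2) * C0 := by
  rw [ff_eq, C0, ← integral_const_mul]
  refine norm_integral_le_of_norm_le (dom_integrable.const_mul _)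
    (Eventually.of_forall fun t => le_trans ?_ (dom _ z le_rfl t))
  exact le_mul_of_one_le_left (norm_nonneg _) (Real.one_le_exp (abs_nonneg t))

theorem ff_diff : Differentiable ℂ ff := by
  intro z0
  have hm := Phi_measurable
  have e : ff = fun z => ∫ t : ℝ, (Phi t : ℂ) * cexp (-(t : ℂ) ^ 2 / 2 + I * z * t) := funext ff_eq
  rw [e]
  have hb : ∀ z ∈ Metric.ball z0 1, |z.im| ≤ |z0.im| + 1 := by
    intro z hz
    have h1 := abs_im_le_norm (z - z0)
    rw [mem_ball_iff_norm] at hz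
    have h2 := abs_sub_abs_le_abs_sub z.im z0.im
    rw [sub_im] at h1
    linarith
  refine (hasDerivAt_integral_of_dominated_loc_of_deriv_le (μ := volume) (Metric.ball_mem_nhds z0 one_pos)
    (F := fun z (t : ℝ) => (Phi t : ℂ) * cexp (-(t : ℂ) ^ 2 / 2 + I * z * t))
    (F' := fun z (t : ℝ) => (Phi t : ℂ) * (cexp (-(t : ℂ) ^ 2 / 2 + I * z * t) * (I * t)))
    (bound := fun t => Real.exp ((|z0.im| + 1 + 3) ^ 2 / 2) *
      ‖(Phi t : ℂ) * cexp (((5 / 2 : ℂ) - 1 / 2) * t)‖)
    (Eventually.of_forall fun z => Measurable.aestronglyMeasurable (by fun_prop)) ?_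
    (Measurable.aestronglyMeasurable (by fun_prop)) (Eventually.of_forall fun t z hz => ?_)
    (dom_integrable.const_mul _) (Eventually.of_forall fun t z _ => ?_)).2.differentiableAt
  · refine (dom_integrable.const_mul (Real.exp ((|z0.im| + 3) ^ 2 / 2))).mono'
      (Measurable.aestronglyMeasurable (by fun_prop))
      (Eventually.of_forall fun t => le_trans ?_ (dom _ z0 le_rfl t))
    exact le_mul_of_one_le_left (norm_nonneg _) (Real.one_le_exp (abs_nonneg t))
  · refine le_trans ?_ (dom _ z (hb z hz) t)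
    rw [← mul_assoc, norm_mul, mul_comm]
    gcongr
    rw [norm_mul, norm_I, one_mul, norm_real, Real.norm_eq_abs]
    linarith [Real.add_one_le_exp |t|]
  · have := ((((hasDerivAt_id z).const_mul I).mul_const (t : ℂ)).const_add
      (-(t : ℂ) ^ 2 / 2)).cexp.const_mul (Phi t : ℂ)
    simpa using this

end Pool.Agent.H.MP_023270_nt
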