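import Mathlib
import Pool.Agent.H.MP_023270_nt.Rep

set_option autoImplicit false

namespace Pool.Agent.H.MP_023270_nt

open Complex Filter Topology MeasureTheory Set

/-- the exponent of the theta series -/
noncomputable def uu (n : ℕ) (t : ℝ) : ℝ := Real.pi * ((n : ℝ) + 1) ^ 2 * Real.exp (2 * t)

/-- a general theta term -/
noncomputable def th (a b c : ℝ) (n : ℕ) (t : ℝ) : ℝ :=
  (a + b * uu n t + c * uu n t ^ 2) * Real.exp (t / 2 - uu n t)

theorem uu_pos (n : ℕ) (t : ℝ) : 0 < uu n t := by unfold uu; positivity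

theorem th_bound (a b c R : ℝ) (n : ℕ) (t : ℝ) (ht : t ∈ Ioo (-R) R) :
    ‖th a b c n t‖ ≤ (|a| + 2 * |b| + 6 * |c|) * Real.exp (3 * R) * Real.exp (-(2 * Lg n)) := by
  have hu := uu_pos n t
  set u := uu n t with hud
  have f1 := Real.pow_div_factorial_le_exp u hu.le 1
  have f2 := Real.pow_div_factorial_le_exp u hu.le 2
  have f3 := Real.pow_div_factorial_le_exp u hu.le 3
  norm_num [Nat.factorial] at f1 f2 f3
  have h1 : |a + b * u + c * u ^ 2| * u ≤ (|a| + 2 * |b| + 6 * |c|) * Real.exp u := by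
    have t1 : |a + b * u + c * u ^ 2| ≤ |a| + |b| * u + |c| * u ^ 2 := by
      refine (abs_add_three _ _ _).trans (le_of_eq ?_)
      rw [abs_mul, abs_mul, abs_of_pos hu, abs_of_pos (pow_pos hu 2)]
    have t2 := mul_le_mul_of_nonneg_left f1 (abs_nonneg a)
    have t3 := mul_le_mul_of_nonneg_left f2 (abs_nonneg b)
    have t4 := mul_le_mul_of_nonneg_left f3 (abs_nonneg c)
    nlinarith [mul_le_mul_of_nonneg_right t1 hu.le]
  have h2 : Real.exp (t / 2) ≤ u * (Real.exp (3 * R) * Real.exp (-(2 * Lg n))) := by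
    rw [exp_Lg2, hud, uu]
    have e : Real.pi * ((n : ℝ) + 1) ^ 2 * Real.exp (2 * t) *
        (Real.exp (3 * R) * (1 / ((n : ℝ) + 1) ^ 2)) = Real.pi * Real.exp (2 * t + 3 * R) := by
      rw [Real.exp_add]
      field_simp
    rw [e]
    have : Real.exp (t / 2) ≤ Real.exp (2 * t + 3 * R) :=
      Real.exp_le_exp.mpr (by linarith [ht.1, ht.2])
    nlinarith [Real.pi_gt_three, Real.exp_pos (2 * t + 3 * R)]
  rw [th, ← hud, Real.norm_eq_abs, abs_mul, abs_of_pos (Real.exp_pos _), Real.exp_sub,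
    ← mul_div_assoc, div_le_iff₀ (Real.exp_pos _)]
  calc _ ≤ |a + b * u + c * u ^ 2| * (u * (Real.exp (3 * R) * Real.exp (-(2 * Lg n)))) := by gcongr
    _ = |a + b * u + c * u ^ 2| * u * (Real.exp (3 * R) * Real.exp (-(2 * Lg n))) := by ring
    _ ≤ (|a| + 2 * |b| + 6 * |c|) * Real.exp u *
        (Real.exp (3 * R) * Real.exp (-(2 * Lg n))) := by gcongr
    _ = _ := by ring

theorem th_summable (a b c t : ℝ) : Summable fun n => th a b c n t :=
  Summable.of_norm_bounded (summable_Lg2.mul_left _) fun n =>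
    th_bound a b c (|t| + 1) n t ⟨by linarith [neg_abs_le t], by linarith [le_abs_self t]⟩

theorem th_deriv (a b : ℝ) (n : ℕ) (t : ℝ) :
    HasDerivAt (th a b 0 n) (th (a / 2) (5 * b / 2 - 2 * a) (-2 * b) n t) t := by
  have h1 : HasDerivAt (uu n) (2 * uu n t) t := by
    have := (((hasDerivAt_id t).const_mul 2).exp).const_mul (Real.pi * ((n : ℝ) + 1) ^ 2)
    refine HasDerivAt.congr_deriv (f := uu n) this ?_
    simp only [uu, id]
    ring
  have h2 := ((h1.const_mul b).const_add a).mul ((((hasDerivAt_id t).div_const 2).sub h1).exp)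
  have e : th a b 0 n = (fun x => a + b * uu n x) * fun x => Real.exp (x / 2 - uu n x) := by
    funext y
    simp [th]
  rw [e]
  refine HasDerivAt.congr_deriv h2 ?_
  simp only [th, id, Pi.sub_apply]
  ring

theorem sum_deriv (a b t : ℝ) : HasDerivAt (fun y => ∑' n, th a b 0 n y)
    (∑' n, th (a / 2) (5 * b / 2 - 2 * a) (-2 * b) n t) t := by
  have ht : t ∈ Ioo (-(|t| + 1)) (|t| + 1) :=
    ⟨by linarith [neg_abs_le t], by linarith [le_abs_self t]⟩
  exact hasDerivAt_tsum_of_isPreconnected (summable_Lg2.mul_left _) isOpen_Ioo isPreconnected_Ioo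
    (fun n y _ => th_deriv a b n y) (fun n y hy => th_bound _ _ _ _ n y hy) ht
    (th_summable _ _ _ _) ht

theorem theta_int (t : ℝ) : Real.exp (t / 2) * ∑' n : ℤ, Real.exp (-Real.pi * Real.exp (2 * t) *
    (n : ℝ) ^ 2) = Real.exp (t / 2) + 2 * ∑' n, th 1 0 0 n t := by
  have e : ∀ n : ℕ, Real.exp (t / 2) * Real.exp (-Real.pi * Real.exp (2 * t) * ((n : ℝ) + 1) ^ 2) =
      th 1 0 0 n t := by
    intro n
    rw [th, uu, ← Real.exp_add]
    ring_nf
  rw [← tsum_mul_left, tsum_of_add_one_of_neg_add_one]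
  · push_cast
    simp only [neg_sq, e]
    simp
    ring
  · push_cast
    simp only [e]
    exact th_summable _ _ _ _
  · push_cast
    simp only [neg_sq, e]
    exact th_summable _ _ _ _

theorem theta_sym (t : ℝ) : (∑' n, th 1 0 0 n t) - (∑' n, th 1 0 0 n (-t)) =
    (Real.exp (-t / 2) - Real.exp (t / 2)) / 2 := by
  have h1 := theta_int t
  have h2 := theta_int (-t)
  have h3 := Real.tsum_exp_neg_mul_int_sq (Real.exp_pos (2 * t))
  have e1 : Real.exp (2 * t) ^ (1 / 2 : ℝ) = Real.exp t := by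
    rw [← Real.exp_mul]; congr 1; ring
  have e2 : -Real.pi / Real.exp (2 * t) = -Real.pi * Real.exp (2 * -t) := by
    rw [div_eq_mul_inv, ← Real.exp_neg]; congr 2; ring
  have e3 : Real.exp (t / 2) * (1 / Real.exp t) = Real.exp (-t / 2) := by
    rw [one_div, ← Real.exp_neg, ← Real.exp_add]; congr 1; ring
  rw [e1, e2] at h3
  rw [h3, ← mul_assoc, e3, h2] at h1
  linarith

theorem Phi_th (t : ℝ) :
    Phi t = (∑' n, th (1 / 4) (-6) 4 n t) - 1 / 4 * ∑' n, th 1 0 0 n t := by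
  rw [Phi, ← tsum_mul_left, ← tsum_mul_left,
    ← (th_summable _ _ _ _).tsum_sub ((th_summable _ _ _ _).mul_left _)]
  congr 1
  funext n
  have e1 : Real.exp (9 * t / 2) = Real.exp (2 * t) ^ 2 * Real.exp (t / 2) := by
    rw [← Real.exp_nat_mul, ← Real.exp_add]; congr 1; push_cast; ring
  have e2 : Real.exp (5 * t / 2) = Real.exp (2 * t) * Real.exp (t / 2) := by
    rw [← Real.exp_add]; congr 1; ring
  simp only [th, uu]
  rw [e1, e2, sub_eq_add_neg (t / 2), Real.exp_add]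
  ring

theorem Phi_even (t : ℝ) : Phi (-t) = Phi t := by
  have s1 : ∀ t : ℝ, (∑' n, th (1 / 2) (-2) 0 n t) + (∑' n, th (1 / 2) (-2) 0 n (-t)) =
      (-Real.exp (-t / 2) - Real.exp (t / 2)) / 4 := by
    intro t
    have a1 := sum_deriv 1 0 t
    have a2 := (sum_deriv 1 0 (-t)).comp t (hasDerivAt_neg t)
    have a3 := (((hasDerivAt_neg t).div_const 2).exp.sub
      ((hasDerivAt_id t).div_const 2).exp).div_const 2
    have a4 := a1.sub a2
    have e : ((fun y => ∑' n, th 1 0 0 n y) - (fun y => ∑' n, th 1 0 0 n y) ∘ Neg.neg) =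
        fun t => (Real.exp (-t / 2) - Real.exp (t / 2)) / 2 := funext theta_sym
    rw [e] at a4
    have := a4.unique a3
    norm_num at this ⊢
    linarith
  have a1 := sum_deriv (1 / 2) (-2) t
  have a2 := (sum_deriv (1 / 2) (-2) (-t)).comp t (hasDerivAt_neg t)
  have a3 := (((hasDerivAt_neg t).div_const 2).exp.neg.sub
    ((hasDerivAt_id t).div_const 2).exp).div_const 4
  have a4 := a1.add a2
  have e : ((fun y => ∑' n, th (1 / 2) (-2) 0 n y) + (fun y => ∑' n, th (1 / 2) (-2) 0 n y) ∘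
      Neg.neg) = fun t => (-Real.exp (-t / 2) - Real.exp (t / 2)) / 4 := funext s1
  rw [e] at a4
  have h := a4.unique a3
  have h2 := theta_sym t
  rw [Phi_th, Phi_th]
  norm_num at h h2 ⊢
  linarith

theorem Phi_nonneg (t : ℝ) : 0 ≤ Phi t := by
  have h : ∀ t : ℝ, 0 ≤ t → 0 ≤ Phi t := by
    intro t ht
    refine mul_nonneg (by norm_num) (tsum_nonneg fun n => mul_nonneg ?_ (Real.exp_pos _).le)
    have h1 : Real.exp (5 * t / 2) ≤ Real.exp (9 * t / 2) := Real.exp_le_exp.mpr (by linarith)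
    have h2 : (1 : ℝ) ≤ ((n : ℝ) + 1) ^ 2 := by nlinarith [Nat.cast_nonneg (α := ℝ) n]
    have h3 : 3 * Real.pi * ((n : ℝ) + 1) ^ 2 ≤ 2 * Real.pi ^ 2 * ((n : ℝ) + 1) ^ 4 := by
      have : 3 ≤ Real.pi * ((n : ℝ) + 1) ^ 2 := by nlinarith [Real.pi_gt_three]
      nlinarith
    rw [sub_nonneg]
    gcongr
  rcases le_total 0 t with ht | ht
  · exact h t ht
  · rw [← Phi_even]
    exact h _ (by linarith)

theorem ff_global (k : ℕ) (hk : 1 ≤ k) (z : ℂ) (hz : |z.im| + 1 / 2 ≤ 2 * k) :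
    ‖ff z‖ ≤ 8 * (k : ℝ) ^ (k + 1) := by
  have hk' : (1 : ℝ) ≤ k := by exact_mod_cast hk
  have hs : 2 ≤ ((2 * k : ℝ) : ℂ).re := by rw [ofReal_re]; linarith
  have e : ∀ t : ℝ, (Phi t : ℂ) * cexp ((((2 * k : ℝ) : ℂ) - 1 / 2) * t) =
      ((Phi t * Real.exp ((2 * k - 1 / 2) * t) : ℝ) : ℂ) := by
    intro t
    push_cast
    rfl
  have i1 := Phi_integrable _ hs
  have i2 := Phi_integral _ hs
  simp only [e] at i1 i2
  have i3 : Integrable fun t : ℝ => Phi t * Real.exp ((2 * k - 1 / 2) * t) := by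
    simpa only [RCLike.re_to_complex, ofReal_re] using i1.re
  have i4 : Integrable fun t : ℝ => Phi t * Real.exp ((2 * k - 1 / 2) * -t) := by
    simpa only [Phi_even] using i3.comp_neg
  have i5 : ∫ t : ℝ, Phi t * Real.exp ((2 * k - 1 / 2) * -t) =
      ∫ t : ℝ, Phi t * Real.exp ((2 * k - 1 / 2) * t) := by
    rw [← integral_neg_eq_self (fun t : ℝ => Phi t * Real.exp ((2 * k - 1 / 2) * t))]
    simp only [Phi_even]
  rw [integral_complex_ofReal] at i2
  have b1 : ∫ t : ℝ, Phi t * Real.exp ((2 * k - 1 / 2) * t) ≤ 4 * (k : ℝ) ^ (k + 1) := by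
    refine (le_abs_self _).trans ?_
    rw [← Real.norm_eq_abs, ← norm_real, i2, norm_mul, gam, norm_mul, norm_mul]
    have c1 := Zs_norm _ hs
    have c2 : ‖((2 * k : ℝ) : ℂ) - 1‖ ≤ 2 * k := by
      rw [← ofReal_one, ← ofReal_sub, norm_real, Real.norm_eq_abs, abs_of_pos (by linarith)]
      linarith
    have c3 : ‖cexp (-(((2 * k : ℝ) : ℂ) / 2) * Real.log Real.pi)‖ ≤ 1 := by
      rw [Complex.norm_exp, Real.exp_le_one_iff]
      simp
      nlinarith [log_pi_bounds.1]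
    have c4 : ‖Gamma (((2 * k : ℝ) : ℂ) / 2 + 1)‖ ≤ (k : ℝ) ^ k := by
      rw [show ((2 * k : ℝ) : ℂ) / 2 + 1 = k + 1 by push_cast; ring, Gamma_nat_eq_factorial,
        Complex.norm_natCast]
      exact_mod_cast k.factorial_le_pow
    calc _ ≤ 2 * k * 1 * (k : ℝ) ^ k * 2 := by gcongr
      _ = _ := by ring
  rw [ff_eq]
  refine (norm_integral_le_of_norm_le (g := fun t => Phi t * Real.exp ((2 * k - 1 / 2) * t) +
    Phi t * Real.exp ((2 * k - 1 / 2) * -t)) (i3.add i4) (Eventually.of_forall fun t => ?_)).trans ?_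
  · rw [norm_mul, norm_real, Real.norm_eq_abs, abs_of_nonneg (Phi_nonneg t), Complex.norm_exp,
      ← mul_add]
    refine mul_le_mul_of_nonneg_left ?_ (Phi_nonneg t)
    have e1 : (-(t : ℂ) ^ 2 / 2 + I * z * t).re = -t ^ 2 / 2 - z.im * t := by
      simp [pow_two]
      ring
    rw [e1]
    have p1 := Real.exp_pos ((2 * k - 1 / 2) * t)
    have p2 := Real.exp_pos ((2 * k - 1 / 2) * -t)
    obtain ⟨y1, y2⟩ := abs_le.mp (show |z.im| ≤ 2 * k - 1 / 2 by linarith)
    rcases le_total 0 t with ht | ht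
    · have : Real.exp (-t ^ 2 / 2 - z.im * t) ≤ Real.exp ((2 * k - 1 / 2) * t) :=
        Real.exp_le_exp.mpr (by nlinarith)
      linarith
    · have : Real.exp (-t ^ 2 / 2 - z.im * t) ≤ Real.exp ((2 * k - 1 / 2) * -t) :=
        Real.exp_le_exp.mpr (by nlinarith)
      linarith
  · rw [integral_add i3 i4, i5]
    linarith

end Pool.Agent.H.MP_023270_nt
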