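import Mathlib
import Pool.Agent.H.MP_023270_nt.Rep

set_option autoImplicit false

namespace Pool.Agent.H.MP_023270_nt

open Complex Filter Topology MeasureTheory Set

/-- local exponential model of the first term -/
noncomputable def EE (X : ℝ) (B z : ℂ) : ℂ :=
  gam (1 / 2 + X * I) * cexp (I * B * (z - X) - B ^ 2 / 2)

/-- the deformed Dirichlet series -/
noncomputable def FF (a : ℂ) : ℂ := ∑' n : ℕ, cexp (-(Lg n : ℂ) ^ 2 / 2 + a * Lg n)

/-- the properties of the slope -/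
structure Slope (X : ℝ) (B : ℂ) : Prop where
  im : |B.im| ≤ 3
  lo : Real.log X / 2 - 2 ≤ B.re
  hi : B.re ≤ Real.log X / 2
  md : ∀ k : ℂ, ‖k‖ ≤ X / 2 → ∃ R : ℂ, ‖R‖ ≤ 3 * ‖k‖ ^ 2 / X ∧
    gam (1 / 2 + X * I + k) = gam (1 / 2 + X * I) * cexp (B * k + R)

theorem exists_slope (X : ℝ) (hX : 20 ≤ X) : ∃ B, Slope X B := by
  obtain ⟨B, h1, h2, h3, h4⟩ := gam_model X hX
  exact ⟨B, h1, h2, h3, h4⟩

theorem gam0_ne (X : ℝ) (hX : 4 ≤ X) : gam (1 / 2 + X * I) ≠ 0 :=
  norm_pos_iff.mp ((Real.exp_pos _).trans_le (gam_lower X hX))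

theorem EE_ne (X : ℝ) (hX : 4 ≤ X) (B z : ℂ) : EE X B z ≠ 0 :=
  mul_ne_zero (gam0_ne X hX) (Complex.exp_ne_zero _)

theorem EE_diff (X : ℝ) (B : ℂ) : Differentiable ℂ (EE X B) := by
  unfold EE
  fun_prop

theorem norm_exp_sub_one (R : ℂ) (r : ℝ) (h : ‖R‖ ≤ r) : ‖cexp R - 1‖ ≤ r * Real.exp r := by
  have h1 := Complex.norm_exp_sub_sum_le_norm_mul_exp R 1
  simp only [Finset.range_one, Finset.sum_singleton, pow_zero, Nat.factorial_zero, Nat.cast_one,
    div_one, pow_one] at h1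
  refine h1.trans ?_
  gcongr
  exact (norm_nonneg _).trans h

theorem point {X D : ℝ} {B : ℂ} (hX : 1000 ≤ X) (hB : Slope X B) (hD : 3 ≤ D)
    (hDX : D ^ 2 ≤ X / 100) (k : ℂ) (x v : ℝ) (hx : |x| ≤ D) (hk : k.im = x + v)
    (h1 : 3 / 2 ≤ k.re) (h2 : k.re + 1 / 2 ≤ D) :
    ‖gam (1 / 2 + X * I + k) - gam (1 / 2 + X * I) * cexp (B * k)‖ ≤
      ‖gam (1 / 2 + X * I) * cexp (B * k)‖ * (100 * D ^ 2 / X * Real.exp ((v + B.im) ^ 2 / 4)) := by
  set u := v + B.im with hu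
  obtain ⟨x1, x2⟩ := abs_le.mp hx
  obtain ⟨b1, b2⟩ := abs_le.mp hB.im
  have hk2 : ‖k‖ ^ 2 ≤ 9 * D ^ 2 + 2 * u ^ 2 := by
    rw [Complex.sq_norm, Complex.normSq_apply, hk]
    have e : x + v = (x - B.im) + u := by rw [hu]; ring
    have a1 : (x - B.im) ^ 2 ≤ (2 * D) ^ 2 := by
      apply sq_le_sq'
      · linarith
      · linarith
    have a2 : k.re * k.re ≤ D ^ 2 := by nlinarith
    rw [e]
    nlinarith [sq_nonneg (x - B.im - u)]
  have hX0 : 0 < X := by linarith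
  have hD2 : 9 ≤ D ^ 2 := by nlinarith
  by_cases hk' : ‖k‖ ≤ X / 2
  · obtain ⟨R, hR, e⟩ := hB.md k hk'
    rw [e, Complex.exp_add, ← mul_assoc, ← mul_sub_one, norm_mul]
    gcongr
    have r1 : 3 * ‖k‖ ^ 2 / X ≤ 0.27 + u ^ 2 / 8 := by
      rw [div_le_iff₀ hX0]
      nlinarith [sq_nonneg u]
    have r2 : 3 * ‖k‖ ^ 2 / X ≤ 75 * D ^ 2 / X * Real.exp (u ^ 2 / 8) := by
      rw [div_mul_eq_mul_div]
      gcongr ?_ / _
      have := Real.add_one_le_exp (u ^ 2 / 8)
      nlinarith [sq_nonneg u]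
    have r3 : Real.exp 0.27 ≤ 4 / 3 := by
      have := Real.exp_bound_div_one_sub_of_interval' (x := 0.27) (by norm_num) (by norm_num)
      have h5 := Real.exp_bound (x := 0.27) (by norm_num) (n := 3) (by norm_num)
      simp only [Finset.sum_range_succ, Finset.range_zero, Finset.sum_empty] at h5
      have := (abs_le.mp h5).2
      norm_num [Nat.factorial] at this ⊢
      linarith
    calc ‖cexp R - 1‖ ≤ 3 * ‖k‖ ^ 2 / X * Real.exp (3 * ‖k‖ ^ 2 / X) := norm_exp_sub_one R _ hR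
      _ ≤ (75 * D ^ 2 / X * Real.exp (u ^ 2 / 8)) * Real.exp (0.27 + u ^ 2 / 8) := by gcongr
      _ = 75 * Real.exp 0.27 * D ^ 2 / X * Real.exp (u ^ 2 / 4) := by
          rw [show u ^ 2 / 4 = u ^ 2 / 8 + u ^ 2 / 8 by ring, Real.exp_add, Real.exp_add]; ring
      _ ≤ _ := by gcongr; linarith
  · push Not at hk'
    have a1 : X ^ 2 / 16 ≤ u ^ 2 := by nlinarith [norm_nonneg k]
    have a2 : X / 4 ≤ |u| := by
      rw [← abs_of_pos (show 0 < X / 4 by linarith), ← sq_le_sq]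
      linarith
    have a3 : D ≤ |u| := by nlinarith
    have a4 : ‖k‖ ≤ 5 * |u| := by
      apply le_of_sq_le_sq _ (by positivity)
      nlinarith [sq_abs u]
    have hre : (1 / 2 + X * I + k).re = k.re + 1 / 2 := by simp; ring
    have g1 := gam_upper (1 / 2 + X * I + k) (by rw [hre]; linarith)
    have g2 : ‖1 / 2 + X * I + k - 1‖ ≤ Real.exp (10 * |u|) := by
      have e : (1 / 2 + X * I + k - 1 : ℂ) = -(1 / 2 : ℝ) + X * I + k := by push_cast; ring
      have t1 := norm_add₃_le (a := (-(1 / 2 : ℝ) : ℂ)) (b := X * I) (c := k)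
      rw [norm_neg, norm_real, norm_mul, norm_real, norm_I, Real.norm_eq_abs, Real.norm_eq_abs,
        abs_of_pos hX0, abs_of_pos (by norm_num)] at t1
      rw [e]
      linarith [Real.add_one_le_exp (10 * |u|)]
    have g3 : Real.exp (((1 / 2 + X * I + k).re + 2) ^ 2) ≤ Real.exp (4 * |u|) := by
      rw [hre, Real.exp_le_exp]
      nlinarith
    have g4 : Real.exp (-(12 * |u|)) ≤ ‖gam (1 / 2 + X * I)‖ :=
      le_trans (Real.exp_le_exp.mpr (by linarith)) (gam_lower X (by linarith))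
    have g5 : Real.exp (-(15 * |u|)) ≤ ‖cexp (B * k)‖ := by
      rw [Complex.norm_exp, Real.exp_le_exp, mul_re]
      have c1 : 0 ≤ B.re := by
        have := hB.lo
        have c2 : 4 ≤ Real.log X := by
          rw [Real.le_log_iff_exp_le hX0]
          have c3 : Real.exp 4 = Real.exp 1 ^ 4 := by rw [← Real.exp_nat_mul]; norm_num
          have c4 : Real.exp 1 ^ 4 ≤ 3 ^ 4 := by gcongr; linarith [Real.exp_one_lt_d9]
          linarith
        linarith
      have c5 : B.im * k.im ≤ 3 * (5 * |u|) := by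
        refine (le_abs_self _).trans ?_
        rw [abs_mul]
        gcongr
        · exact hB.im
        · exact (abs_im_le_norm k).trans a4
      nlinarith
    set G := ‖gam (1 / 2 + X * I) * cexp (B * k)‖ with hG
    have g6 : Real.exp (-(27 * |u|)) ≤ G := by
      rw [hG, norm_mul, show -(27 * |u|) = -(12 * |u|) + -(15 * |u|) by ring, Real.exp_add]
      gcongr
    have g7 : ‖gam (1 / 2 + X * I + k)‖ ≤ G * Real.exp (41 * |u|) := by
      calc _ ≤ Real.exp (10 * |u|) * Real.exp (4 * |u|) := g1.trans (by gcongr)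
        _ = Real.exp (-(27 * |u|)) * Real.exp (41 * |u|) := by
            rw [← Real.exp_add, ← Real.exp_add]; congr 1; ring
        _ ≤ _ := by gcongr
    have g8 : Real.exp (41 * |u|) + 1 ≤ 100 * D ^ 2 / X * Real.exp (u ^ 2 / 4) := by
      have c1 : Real.exp (41 * |u|) * Real.exp (4 * |u|) ≤ Real.exp (u ^ 2 / 4) := by
        rw [← Real.exp_add, Real.exp_le_exp]
        nlinarith [sq_abs u]
      have c2 : X ≤ Real.exp (4 * |u|) := by linarith [Real.add_one_le_exp (4 * |u|)]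
      have c3 : 1 ≤ Real.exp (41 * |u|) := Real.one_le_exp (by positivity)
      rw [div_mul_eq_mul_div, le_div_iff₀ hX0]
      have c4 : Real.exp (41 * |u|) * X ≤ Real.exp (u ^ 2 / 4) := le_trans (by gcongr) c1
      nlinarith [Real.exp_pos (u ^ 2 / 4)]
    have hG0 : 0 ≤ G := norm_nonneg _
    calc _ ≤ ‖gam (1 / 2 + X * I + k)‖ + G := norm_sub_le _ _
      _ ≤ G * (Real.exp (41 * |u|) + 1) := by linarith
      _ ≤ _ := by gcongr

theorem approx {X D : ℝ} {B : ℂ} (hX : 1000 ≤ X) (hB : Slope X B) (hD : 3 ≤ D)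
    (hDX : D ^ 2 ≤ X / 100) (z : ℂ) (hz : |z.re - X| ≤ D) (τ : ℝ) (h1 : 2 ≤ τ) (h2 : τ ≤ D) :
    ‖ff z / EE X B z - FF (B - (1 / 2 + I * z))‖ ≤
      300 * D ^ 2 / X * Real.exp (((B - (1 / 2 + I * z)).re + τ) ^ 2 / 2) := by
  set κ : ℝ := 1 / 2 - z.im - τ with hκ
  obtain ⟨i1, e1⟩ := rep z κ (by rw [hκ]; linarith)
  have hre : ∀ v : ℝ, (1 / 2 + I * (z + (v + κ * I))).re = τ := by
    intro v
    simp [hκ]
    ring
  let G : ℝ → ℂ := fun v => gam (1 / 2 + X * I) * cexp (I * B * (z - X)) *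
    cexp (-(v + κ * I) ^ 2 / 2 + I * (v + κ * I) * B)
  have iG : Integrable G := (gauss_integrable κ B).const_mul _
  let T : ℕ → ℝ → ℂ := fun n v => G v * cexp (-(1 / 2 + I * (z + (v + κ * I))) * Lg n)
  have eT : ∀ n v, T n v = gam (1 / 2 + X * I) * cexp (I * B * (z - X)) *
      cexp (-(1 / 2 + I * z) * Lg n) *
      cexp (-(v + κ * I) ^ 2 / 2 + I * (v + κ * I) * (B - Lg n)) := by
    intro n v
    simp only [T, G, mul_assoc, ← Complex.exp_add]
    congr 2
    ring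
  have iT : ∀ n, Integrable (T n) := by
    intro n
    have : T n = _ := funext (eT n)
    rw [this]
    exact (gauss_integrable κ _).const_mul _
  have sT : Summable fun n => ∫ v, ‖T n v‖ := by
    refine Summable.of_nonneg_of_le (fun n => integral_nonneg fun t => norm_nonneg _) (fun n => ?_)
      (summable_Lg2.mul_left (∫ v, ‖G v‖))
    rw [← integral_mul_const]
    refine integral_mono (iT n).norm (iG.norm.mul_const _) fun v => ?_
    simp only [T, norm_mul (G v)]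
    gcongr
    exact Zs_term _ (by rw [hre]; exact h1) n
  have mT : ∀ n, Measurable (T n) := by
    intro n
    simp only [T, G]
    fun_prop
  have eS : ∀ v : ℝ, ∑' n, T n v = G v * Zs (1 / 2 + I * (z + (v + κ * I))) := by
    intro v
    simp only [T, Zs, tsum_mul_left]
  have i2 : Integrable fun v : ℝ => G v * Zs (1 / 2 + I * (z + (v + κ * I))) := by
    simp only [← eS]
    exact integrable_tsum' mT iT sT
  have e2 : ∫ v : ℝ, G v * Zs (1 / 2 + I * (z + (v + κ * I))) =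
      c2 * (EE X B z * FF (B - (1 / 2 + I * z))) := by
    simp only [← eS]
    rw [← integral_tsum_of_summable_integral_norm iT sT, FF, ← tsum_mul_left, ← tsum_mul_left]
    congr 1
    funext n
    simp only [eT]
    rw [integral_const_mul, gauss, EE]
    have e0 : cexp (I * B * (z - X)) * cexp (-(1 / 2 + I * z) * Lg n) * cexp (-(B - Lg n) ^ 2 / 2) =
        cexp (I * B * (z - X) - B ^ 2 / 2) *
          cexp (-(Lg n : ℂ) ^ 2 / 2 + (B - (1 / 2 + I * z)) * Lg n) := by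
      simp only [← Complex.exp_add]
      congr 1
      ring
    linear_combination (c2 * gam (1 / 2 + X * I)) * e0
  have hE := EE_ne X (by linarith) B z
  set σ := (B - (1 / 2 + I * z)).re with hσ
  have nG : ∀ v : ℝ, ‖G v‖ =
      ‖EE X B z‖ * Real.exp ((σ + τ) ^ 2 / 2) * Real.exp (-(v + B.im) ^ 2 / 2) := by
    intro v
    simp only [G, EE, norm_mul, Complex.norm_exp, mul_assoc, ← Real.exp_add]
    congr 2
    simp [hσ, hκ, pow_two]
    ring
  have hX0 : 0 < X := by linarith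
  have key : ‖c2 * ff z - c2 * (EE X B z * FF (B - (1 / 2 + I * z)))‖ ≤
      ‖EE X B z‖ * Real.exp ((σ + τ) ^ 2 / 2) * (200 * D ^ 2 / X) * Real.sqrt (Real.pi / (1 / 4)) := by
    rw [e1, ← e2, ← integral_sub i1 i2, ← integral_gaussian,
      ← integral_add_right_eq_self (fun x : ℝ => Real.exp (-(1 / 4) * x ^ 2)) B.im,
      ← integral_const_mul]
    refine norm_integral_le_of_norm_le
      (((integrable_exp_neg_mul_sq (by norm_num : (0 : ℝ) < 1 / 4)).comp_add_right B.im).const_mul _)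
      (Eventually.of_forall fun v => ?_)
    set k : ℂ := I * (z + (v + κ * I)) - X * I with hk
    have e3 : 1 / 2 + I * (z + (v + κ * I)) = 1 / 2 + X * I + k := by rw [hk]; ring
    have e4 : G v = cexp (-(v + κ * I) ^ 2 / 2) * (gam (1 / 2 + X * I) * cexp (B * k)) := by
      simp only [G]
      rw [mul_left_comm, mul_assoc, ← Complex.exp_add, ← Complex.exp_add]
      congr 2
      rw [hk]
      ring
    have hkre : k.re = τ - 1 / 2 := by simp [hk, hκ]; ring
    have p := point hX hB hD hDX k (z.re - X) v hz (by simp [hk]; ring) (by rw [hkre]; linarith)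
      (by rw [hkre]; linarith)
    have zs := Zs_norm _ (show 2 ≤ (1 / 2 + I * (z + (v + κ * I))).re by rw [hre]; exact h1)
    calc _ = ‖cexp (-(v + κ * I) ^ 2 / 2)‖ *
          ‖gam (1 / 2 + X * I + k) - gam (1 / 2 + X * I) * cexp (B * k)‖ *
          ‖Zs (1 / 2 + I * (z + (v + κ * I)))‖ := by
          rw [← norm_mul, ← norm_mul, e4, ← e3]
          congr 1
          ring
      _ ≤ ‖cexp (-(v + κ * I) ^ 2 / 2)‖ * (‖gam (1 / 2 + X * I) * cexp (B * k)‖ *
          (100 * D ^ 2 / X * Real.exp ((v + B.im) ^ 2 / 4))) * 2 := by gcongr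
      _ = ‖G v‖ * Real.exp ((v + B.im) ^ 2 / 4) * (200 * D ^ 2 / X) := by
          rw [e4, norm_mul (cexp _)]
          ring
      _ = _ := by
          rw [nG, show -(1 / 4) * (v + B.im) ^ 2 = -(v + B.im) ^ 2 / 2 + (v + B.im) ^ 2 / 4 by ring,
            Real.exp_add]
          ring
  have hs : Real.sqrt (Real.pi / (1 / 4)) ≤ 3 / 2 * c2 := by
    rw [c2, show (3 / 2 : ℝ) = Real.sqrt ((3 / 2) ^ 2) by rw [Real.sqrt_sq (by norm_num)],
      ← Real.sqrt_mul (by norm_num)]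
    gcongr
    linarith [Real.pi_pos]
  have e5 : (c2 : ℂ) * ff z - c2 * (EE X B z * FF (B - (1 / 2 + I * z))) =
      c2 * EE X B z * (ff z / EE X B z - FF (B - (1 / 2 + I * z))) := by
    field_simp
  rw [e5, norm_mul, norm_mul, norm_real, Real.norm_eq_abs, abs_of_pos c2_pos] at key
  have hp : 0 < c2 * ‖EE X B z‖ := mul_pos c2_pos (norm_pos_iff.mpr hE)
  refine le_of_mul_le_mul_left (key.trans ?_) hp
  calc _ ≤ ‖EE X B z‖ * Real.exp ((σ + τ) ^ 2 / 2) * (200 * D ^ 2 / X) * (3 / 2 * c2) := by gcongr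
    _ = _ := by ring

theorem FF_term (a : ℂ) (n : ℕ) : ‖cexp (-(Lg n : ℂ) ^ 2 / 2 + a * Lg n)‖ =
    Real.exp (-Lg n ^ 2 / 2 + a.re * Lg n) := by
  rw [Complex.norm_exp]
  congr 1
  simp [pow_two]

theorem FF_term_le (a : ℂ) (n : ℕ) : ‖cexp (-(Lg n : ℂ) ^ 2 / 2 + a * Lg n)‖ ≤
    Real.exp ((a.re + 2) ^ 2 / 2) * Real.exp (-(2 * Lg n)) := by
  rw [FF_term, ← Real.exp_add, Real.exp_le_exp]
  nlinarith [sq_nonneg (Lg n - (a.re + 2))]

theorem FF_summable (a : ℂ) : Summable fun n : ℕ => cexp (-(Lg n : ℂ) ^ 2 / 2 + a * Lg n) :=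
  Summable.of_norm_bounded (summable_Lg2.mul_left _) (FF_term_le a)

theorem FF_upper (a : ℂ) : ‖FF a‖ ≤ 2 * Real.exp ((a.re + 2) ^ 2 / 2) := by
  refine (tsum_of_norm_bounded (summable_Lg2.hasSum.mul_left _) (FF_term_le a)).trans ?_
  rw [mul_comm]
  gcongr
  exact tsum_Lg2

theorem FF_one (a : ℂ) (ha : a.re ≤ -4) : ‖FF a - 1‖ ≤ 1 / 4 := by
  rw [FF, (FF_summable a).tsum_eq_zero_add]
  have e : cexp (-(Lg 0 : ℂ) ^ 2 / 2 + a * Lg 0) = 1 := by simp [Lg]
  rw [e, add_sub_cancel_left]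
  have hs := ((summable_nat_add_iff 1).mpr summable_Lg2).hasSum.mul_left (1 / 4)
  refine (tsum_of_norm_bounded hs fun n => ?_).trans (by linarith [tsum_Lg2_tail])
  rw [FF_term]
  have h1 : Real.exp (-(2 * Lg (n + 1))) ≤ 1 / 4 := by
    rw [exp_Lg2]
    gcongr
    push_cast
    nlinarith [Nat.cast_nonneg (α := ℝ) n]
  calc _ ≤ Real.exp (-(2 * Lg (n + 1))) * Real.exp (-(2 * Lg (n + 1))) := by
        rw [← Real.exp_add, Real.exp_le_exp]
        nlinarith [Lg_nonneg (n + 1), sq_nonneg (Lg (n + 1))]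
    _ ≤ _ := by gcongr

theorem FF_tail (a : ℂ) (ha : 0 ≤ a.re) (M : ℕ) (hM : 2 * a.re + 4 ≤ Lg M) :
    ‖FF a - ∑ n ∈ Finset.range M, cexp (-(Lg n : ℂ) ^ 2 / 2 + a * Lg n)‖ ≤ 2 := by
  rw [FF, ← (FF_summable a).sum_add_tsum_nat_add M, add_sub_cancel_left]
  have hs := ((summable_nat_add_iff M).mpr summable_Lg2)
  refine (tsum_of_norm_bounded hs.hasSum fun n => ?_).trans ?_
  · rw [FF_term, Real.exp_le_exp]
    have : Lg M ≤ Lg (n + M) := by
      unfold Lg
      gcongr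
      omega
    nlinarith
  · refine le_trans ?_ tsum_Lg2
    rw [← summable_Lg2.sum_add_tsum_nat_add M]
    exact le_add_of_nonneg_left (Finset.sum_nonneg fun i _ => (Real.exp_pos _).le)

theorem h_upper {X D : ℝ} {B : ℂ} (hX : 1000 ≤ X) (hB : Slope X B) (hD : 3 ≤ D)
    (hDX : D ^ 2 ≤ X / 100) (z : ℂ) (hz : |z.re - X| ≤ D) :
    ‖ff z / EE X B z‖ ≤ Real.exp ((B.re - 1 / 2 + z.im + 2) ^ 2 / 2 + 2) := by
  have h1 := approx hX hB hD hDX z hz 2 le_rfl (by linarith)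
  have h2 := FF_upper (B - (1 / 2 + I * z))
  have e : (B - (1 / 2 + I * z)).re = B.re - 1 / 2 + z.im := by simp; ring
  rw [e] at h1 h2
  have h3 : 300 * D ^ 2 / X ≤ 3 := by
    rw [div_le_iff₀ (by linarith)]
    linarith
  have h4 := norm_sub_norm_le (ff z / EE X B z) (FF (B - (1 / 2 + I * z)))
  have h5 := Real.quadratic_le_exp_of_nonneg (x := 2) (by norm_num)
  rw [Real.exp_add]
  nlinarith [Real.exp_pos ((B.re - 1 / 2 + z.im + 2) ^ 2 / 2)]

theorem h_one {X D : ℝ} {B : ℂ} (hX : 1000 ≤ X) (hB : Slope X B) (hD : 3 ≤ D)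
    (hDX : D ^ 2 ≤ X / 1200) (z : ℂ) (hz : |z.re - X| ≤ D) (h1 : B.re - 1 / 2 + z.im ≤ -4)
    (h2 : -D ≤ B.re - 1 / 2 + z.im) : ‖ff z / EE X B z - 1‖ ≤ 1 / 2 := by
  have e : (B - (1 / 2 + I * z)).re = B.re - 1 / 2 + z.im := by simp; ring
  have a1 := approx hX hB hD (by linarith) z hz (-(B.re - 1 / 2 + z.im)) (by linarith) (by linarith)
  have a2 := FF_one (B - (1 / 2 + I * z)) (by rw [e]; exact h1)
  rw [e] at a1
  simp only [add_neg_cancel, ne_eq, OfNat.ofNat_ne_zero, not_false_eq_true, zero_pow, zero_div,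
    Real.exp_zero, mul_one] at a1
  have h3 : 300 * D ^ 2 / X ≤ 1 / 4 := by
    rw [div_le_iff₀ (by linarith)]
    linarith
  have := norm_sub_le_norm_sub_add_norm_sub (ff z / EE X B z) (FF (B - (1 / 2 + I * z))) 1
  linarith

end Pool.Agent.H.MP_023270_nt
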