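import Mathlib
import Pool.Agent.H.MP_023270_nt.Gam

set_option autoImplicit false

namespace Pool.Agent.H.MP_023270_nt

open Complex Finset MeasureTheory

/-- a character of the real line -/
noncomputable def ee (θ x : ℝ) : ℂ := cexp (-(I * θ) * x)

theorem ee_norm (θ x : ℝ) : ‖ee θ x‖ = 1 := by
  rw [ee, Complex.norm_exp]
  simp

theorem ee_cont (θ : ℝ) : Continuous (ee θ) := by
  unfold ee
  fun_prop

theorem ee_mul (θ η x : ℝ) : ee θ x * ee η x = ee (θ + η) x := by
  rw [ee, ee, ee, ← Complex.exp_add]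
  congr 1
  push_cast
  ring

theorem ee_conj (θ x : ℝ) : (starRingEnd ℂ) (ee θ x) = ee (-θ) x := by
  rw [ee, ee, ← Complex.exp_conj]
  congr 1
  simp

/-- the integral of a character over an interval -/
noncomputable def KI (θ a H : ℝ) : ℂ := ∫ x in a..a + H, ee θ x

theorem KI_le (θ a H : ℝ) (hH : 0 ≤ H) : ‖KI θ a H‖ ≤ H := by
  have := intervalIntegral.norm_integral_le_of_norm_le_const (a := a) (b := a + H) (C := 1)
    (f := ee θ) fun x _ => (ee_norm θ x).le
  simpa [abs_of_nonneg hH, KI] using this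

theorem KI_le' (θ a H : ℝ) : ‖KI θ a H‖ * |θ| ≤ 2 := by
  by_cases h : θ = 0
  · simp [h]
  have h1 : -(I * θ) ≠ 0 := by simpa using h
  have h2 := integral_exp_mul_complex (a := a) (b := a + H) h1
  have h3 : KI θ a H = (ee θ (a + H) - ee θ a) / -(I * θ) := h2
  rw [h3, norm_div, norm_neg, norm_mul, norm_I, one_mul, norm_real, Real.norm_eq_abs,
    div_mul_cancel₀ _ (by simpa using h)]
  refine (norm_sub_le _ _).trans ?_
  rw [ee_norm, ee_norm]
  norm_num

theorem KI_shift (θ a H : ℝ) : KI θ a H = KI θ 0 H * ee θ a := by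
  rw [KI, KI, ← intervalIntegral.integral_mul_const, add_comm a H]
  have := intervalIntegral.integral_comp_add_right (a := 0) (b := H) (ee θ) a
  rw [zero_add] at this
  rw [← this, zero_add]
  congr 1
  funext x
  rw [ee, ee, ee, ← Complex.exp_add]
  congr 1
  push_cast
  ring

theorem KI_zero (a H : ℝ) : KI 0 a H = H := by
  simp [KI, ee]

theorem int_sum {ι : Type*} (P : Finset ι) (c : ι → ℂ) (θ : ι → ℝ) (a H : ℝ) :
    ∫ x in a..a + H, ∑ p ∈ P, c p * ee (θ p) x = ∑ p ∈ P, c p * KI (θ p) a H := by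
  rw [intervalIntegral.integral_finsetSum fun p _ =>
    ((ee_cont _).const_mul _).intervalIntegrable _ _]
  simp only [intervalIntegral.integral_const_mul, KI]

theorem mean_value {ι : Type*} (P : Finset ι) (c : ι → ℂ) (θ : ι → ℝ) (δ : ℝ) (h0 : 0 < δ)
    (hδ : ∀ p ∈ P, ∀ q ∈ P, θ p ≠ θ q → δ ≤ |θ p - θ q|) (a H : ℝ) (hH : 0 ≤ H) :
    ∫ x in a..a + H, ‖∑ p ∈ P, c p * ee (θ p) x‖ ^ 2 ≤
      H * ∑ p ∈ P ×ˢ P, (if θ p.1 = θ p.2 then ‖c p.1‖ * ‖c p.2‖ else 0) +
        2 / δ * (∑ p ∈ P, ‖c p‖) ^ 2 := by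
  have e : ∀ x, ((‖∑ p ∈ P, c p * ee (θ p) x‖ ^ 2 : ℝ) : ℂ) =
      ∑ p ∈ P ×ˢ P, c p.1 * (starRingEnd ℂ) (c p.2) * ee (θ p.1 - θ p.2) x := by
    intro x
    rw [ofReal_pow, ← mul_conj', map_sum, sum_mul_sum, sum_product]
    refine sum_congr rfl fun p _ => sum_congr rfl fun q _ => ?_
    rw [map_mul, ee_conj, sub_eq_add_neg, ← ee_mul]
    ring
  refine (le_abs_self _).trans ?_
  rw [← Real.norm_eq_abs, ← norm_real, ← intervalIntegral.integral_ofReal]
  simp only [e]
  rw [int_sum, sq, sum_mul_sum, ← sum_product', mul_sum, mul_sum, ← sum_add_distrib]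
  refine norm_sum_le_of_le _ fun p hp => ?_
  rw [mem_product] at hp
  rw [norm_mul, norm_mul, RCLike.norm_conj]
  have h1 : 0 ≤ ‖c p.1‖ * ‖c p.2‖ := by positivity
  split_ifs with h
  · have := KI_le (θ p.1 - θ p.2) a H hH
    have h2 : 0 ≤ 2 / δ * (‖c p.1‖ * ‖c p.2‖) := by positivity
    nlinarith
  · have h2 : ‖KI (θ p.1 - θ p.2) a H‖ ≤ 2 / δ := by
      rw [le_div_iff₀ h0]
      exact le_trans (by gcongr; exact hδ _ hp.1 _ hp.2 h) (KI_le' (θ p.1 - θ p.2) a H)
    nlinarith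

theorem sum_le_of_cover {α β : Type*} (A : Finset α) (D : Finset β) (F : α → ℝ) (ψ : β → ℝ)
    (φ : β → α) (hψ : ∀ d ∈ D, 0 ≤ ψ d)
    (h : ∀ x ∈ A, F x ≤ 0 ∨ ∃ d ∈ D, φ d = x ∧ F x ≤ ψ d) : ∑ x ∈ A, F x ≤ ∑ d ∈ D, ψ d := by
  classical
  have h0 : ∀ x, 0 ≤ ∑ d ∈ D with φ d = x, ψ d :=
    fun x => sum_nonneg fun d hd => hψ d (mem_filter.mp hd).1
  refine le_trans (sum_le_sum fun x hx => ?_)
    (sum_fiberwise_le_sum_of_sum_fiber_nonneg (g := φ) (t := A) fun x _ => h0 x)
  rcases h x hx with h1 | ⟨d, hd, h1, h2⟩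
  · exact h1.trans (h0 x)
  · exact h2.trans (single_le_sum (fun d hd => hψ d (mem_filter.mp hd).1)
      (mem_filter.mpr ⟨hd, h1⟩))

theorem sum_two_sided (α : ℝ) (hα : 0 < α) (g M : ℕ) :
    ∑ r ∈ Ioc 0 M, (if r = g then 0 else 1 / (α + |(r : ℝ) - g|) ^ 2) ≤ 2 / α := by
  refine (sum_le_of_cover _ (range (M + g) ×ˢ (univ : Finset Bool)) _
    (fun d => 1 / (α + (d.1 + 1)) ^ 2) (fun d => if d.2 then g + (d.1 + 1) else g - (d.1 + 1))
    (fun d _ => by positivity) fun r hr => ?_).trans ?_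
  · rw [mem_Ioc] at hr
    rcases lt_trichotomy r g with h | h | h
    · obtain ⟨j, rfl⟩ := Nat.exists_eq_add_of_lt h
      refine Or.inr ⟨(j, false), by simp; omega, by simp [add_assoc], le_of_eq ?_⟩
      rw [if_neg h.ne, abs_sub_comm, abs_of_nonneg (by push_cast; linarith [Nat.cast_nonneg (α := ℝ) j])]
      push_cast
      ring
    · simp [h]
    · obtain ⟨j, rfl⟩ := Nat.exists_eq_add_of_lt h
      refine Or.inr ⟨(j, true), by simp; omega, by simp; omega, le_of_eq ?_⟩
      rw [if_neg h.ne', abs_of_nonneg (by push_cast; linarith [Nat.cast_nonneg (α := ℝ) j])]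
      push_cast
      ring
  · rw [sum_product]
    simp only [sum_const, card_univ, Fintype.card_bool, nsmul_eq_mul, ← mul_sum]
    have := tele α hα (M + g)
    push_cast
    rw [div_eq_mul_one_div 2]
    linarith

/-- the coefficients of the Dirichlet polynomial -/
noncomputable def bb (ρ : ℝ) (m : ℕ) : ℝ := Real.exp (-Real.log m ^ 2 / 2 + ρ * Real.log m)

theorem bb_eq (ρ : ℝ) (m : ℕ) :
    bb ρ m = Real.exp (ρ ^ 2 / 2) * Real.exp (-(Real.log m - ρ) ^ 2 / 2) := by
  rw [bb, ← Real.exp_add]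
  congr 1
  ring

theorem bb_pos (ρ : ℝ) (m : ℕ) : 0 < bb ρ m := Real.exp_pos _

theorem bb_le (ρ : ℝ) (m : ℕ) : bb ρ m ≤ Real.exp (ρ ^ 2 / 2) := by
  rw [bb, Real.exp_le_exp]
  nlinarith [sq_nonneg (Real.log m - ρ)]

/-- the coefficients of the smoothed correlation -/
noncomputable def cc (ρ W : ℝ) (p : ℕ × ℕ) : ℂ := bb ρ p.1 * KI (Real.log p.1 - Real.log p.2) 0 W

theorem cc_le (ρ W : ℝ) (hW : 0 ≤ W) (p : ℕ × ℕ) : ‖cc ρ W p‖ ≤ Real.exp (ρ ^ 2 / 2) * W := by
  rw [cc, norm_mul, norm_real, Real.norm_eq_abs, abs_of_pos (bb_pos _ _)]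
  gcongr
  · exact bb_le _ _
  · exact KI_le _ _ _ hW

theorem cc_le' (N n a : ℕ) (hN : 0 < N) (hn : 0 < n) (ha : N ≤ a) (W : ℝ) :
    ‖cc (Real.log N) W (n, a)‖ * |(n : ℝ) - a| ≤ 4 * a * Real.exp (Real.log N ^ 2 / 2) := by
  have hN' : (0 : ℝ) < N := by exact_mod_cast hN
  have hn' : (0 : ℝ) < n := by exact_mod_cast hn
  have ha' : (N : ℝ) ≤ a := by exact_mod_cast ha
  have ha0 : (0 : ℝ) < a := by linarith
  have hK := KI_le' (Real.log n - Real.log a) 0 W
  rw [cc, norm_mul, norm_real, Real.norm_eq_abs, abs_of_pos (bb_pos _ _)]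
  dsimp only
  set K := ‖KI (Real.log n - Real.log a) 0 W‖
  have hK0 : 0 ≤ K := norm_nonneg _
  set E := Real.exp (Real.log N ^ 2 / 2)
  have hE : 0 < E := Real.exp_pos _
  rcases le_total (n : ℝ) a with h | h
  · have h1 : |(n : ℝ) - a| ≤ a * |Real.log n - Real.log a| := by
      have h2 := Real.log_le_sub_one_of_pos (div_pos hn' ha0)
      rw [Real.log_div hn'.ne' ha0.ne', div_sub_one ha0.ne', le_div_iff₀ ha0] at h2
      rw [abs_of_nonpos (by linarith)]
      nlinarith [neg_abs_le (Real.log n - Real.log a)]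
    calc _ ≤ E * K * (a * |Real.log n - Real.log a|) := by gcongr; exact bb_le _ _
      _ = E * a * (K * |Real.log n - Real.log a|) := by ring
      _ ≤ E * a * 2 := by gcongr
      _ ≤ _ := by nlinarith [mul_pos hE ha0]
  · have h1 : |(n : ℝ) - a| ≤ n * |Real.log n - Real.log a| := by
      have h2 := Real.log_le_sub_one_of_pos (div_pos ha0 hn')
      rw [Real.log_div ha0.ne' hn'.ne', div_sub_one hn'.ne', le_div_iff₀ hn'] at h2
      rw [abs_of_nonneg (by linarith)]
      nlinarith [le_abs_self (Real.log n - Real.log a)]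
    have h3 : bb (Real.log N) n * n ≤ E * (2 * a) := by
      rw [bb_eq, mul_assoc]
      refine mul_le_mul_of_nonneg_left ?_ hE.le
      have h4 : Real.log N ≤ Real.log a := Real.log_le_log hN' ha'
      have h5 : Real.exp (1 / 2) ≤ 2 := by
        have : Real.exp (1 / 2) ^ 2 = Real.exp 1 := by rw [← Real.exp_nat_mul]; norm_num
        nlinarith [Real.exp_one_lt_d9, Real.exp_pos (1 / 2)]
      calc _ = Real.exp (-(Real.log n - Real.log N) ^ 2 / 2 + Real.log n) := by
            rw [Real.exp_add, Real.exp_log hn']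
        _ ≤ Real.exp (1 / 2 + Real.log a) := by
            rw [Real.exp_le_exp]
            nlinarith [sq_nonneg (Real.log n - Real.log N - 1)]
        _ ≤ _ := by
            rw [Real.exp_add, Real.exp_log ha0]
            gcongr
    calc _ ≤ bb (Real.log N) n * K * (n * |Real.log n - Real.log a|) := by
          gcongr
          exact mul_nonneg (bb_pos _ _).le hK0
      _ = bb (Real.log N) n * n * (K * |Real.log n - Real.log a|) := by ring
      _ ≤ E * (2 * a) * 2 := by gcongr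
      _ = _ := by ring

theorem cc_scale (N g r u : ℕ) (hN : 0 < N) (hr : 0 < r) (hg : 0 < g) (hu : 0 < u) (ha : N ≤ g * u)
    (W : ℝ) (hW : 0 < W) : ‖cc (Real.log N) W (r * u, g * u)‖ ≤
      6 * g * Real.exp (Real.log N ^ 2 / 2) / (2 * g / W + |(r : ℝ) - g|) := by
  have h1 := cc_le' N (r * u) (g * u) hN (by positivity) ha W
  have h2 := cc_le (Real.log N) W hW.le (r * u, g * u)
  have hu' : (0 : ℝ) < u := by exact_mod_cast hu
  push_cast at h1
  rw [← sub_mul, abs_mul, abs_of_pos hu', ← mul_assoc] at h1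
  have h3 : ‖cc (Real.log N) W (r * u, g * u)‖ * |(r : ℝ) - g| ≤
      4 * g * Real.exp (Real.log N ^ 2 / 2) := le_of_mul_le_mul_right (by linarith) hu'
  have h4 : ‖cc (Real.log N) W (r * u, g * u)‖ * (2 * g / W) ≤
      2 * g * Real.exp (Real.log N ^ 2 / 2) := by
    calc _ ≤ Real.exp (Real.log N ^ 2 / 2) * W * (2 * g / W) := by gcongr
      _ = _ := by field_simp
  rw [le_div_iff₀ (by positivity)]
  linarith

/-- the off-diagonal pairs -/
def PO (N M : ℕ) : Finset (ℕ × ℕ) := (Ioc 0 M ×ˢ Ioc N (2 * N)).filter fun p => p.1 ≠ p.2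

theorem log_eq {n a n' a' : ℕ} (h1 : 0 < n) (h2 : 0 < a) (h3 : 0 < n') (h4 : 0 < a') :
    Real.log n - Real.log a - (Real.log n' - Real.log a') =
      Real.log (n * a' : ℕ) - Real.log (n' * a : ℕ) := by
  push_cast
  rw [Real.log_mul (by positivity) (by positivity), Real.log_mul (by positivity) (by positivity)]
  ring

theorem log_sep {m n K : ℕ} (hm : 0 < m) (h : m < n) (hn : n ≤ K) :
    1 / (K : ℝ) ≤ Real.log n - Real.log m := by
  have hm' : (0 : ℝ) < m := by exact_mod_cast hm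
  have h' : (m : ℝ) + 1 ≤ n := by exact_mod_cast h
  have hn' : (n : ℝ) ≤ K := by exact_mod_cast hn
  have hn0 : (0 : ℝ) < n := by linarith
  have h2 := Real.log_le_sub_one_of_pos (div_pos hm' hn0)
  rw [Real.log_div hm'.ne' hn0.ne', div_sub_one hn0.ne', le_div_iff₀ hn0] at h2
  have h3 : 0 ≤ Real.log n - Real.log m := sub_nonneg.mpr (Real.log_le_log hm' (by linarith))
  rw [div_le_iff₀ (by linarith)]
  nlinarith

theorem energy (N M : ℕ) (hN : 0 < N) (W : ℝ) (hW : 0 < W) :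
    ∑ p ∈ PO N M ×ˢ PO N M, (if Real.log p.1.1 - Real.log p.1.2 = Real.log p.2.1 - Real.log p.2.2
      then ‖cc (Real.log N) W p.1‖ * ‖cc (Real.log N) W p.2‖ else 0) ≤
      144 * N ^ 2 * W * Real.exp (Real.log N ^ 2 / 2) ^ 2 * (1 + Real.log (2 * N : ℕ)) := by
  set E := Real.exp (Real.log N ^ 2 / 2) with hE
  refine (sum_le_of_cover _ ((Ioc 0 (2 * N) ×ˢ Ioc 0 M).sigma
    fun d => Ioc 0 (2 * N / d.1) ×ˢ Ioc 0 (2 * N / d.1)) _
    (fun d => (6 * d.1.1 * E) ^ 2 *
      (if d.1.2 = d.1.1 then 0 else 1 / (2 * d.1.1 / W + |(d.1.2 : ℝ) - d.1.1|) ^ 2))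
    (fun d => ((d.1.2 * d.2.1, d.1.1 * d.2.1), (d.1.2 * d.2.2, d.1.1 * d.2.2)))
    (fun d _ => by positivity) ?_).trans ?_
  · rintro ⟨⟨n, a⟩, ⟨n', a'⟩⟩ hp
    simp only [PO, mem_product, mem_filter, mem_Ioc] at hp
    obtain ⟨⟨⟨⟨p1, p2⟩, p3, p4⟩, p5⟩, ⟨⟨q1, q2⟩, q3, q4⟩, -⟩ := hp
    dsimp only
    split_ifs with h
    swap
    · exact Or.inl le_rfl
    right
    have h1 : n * a' = n' * a := by
      have h2 := log_eq p1 (show 0 < a by omega) q1 (show 0 < a' by omega)
      rw [h, sub_self, eq_comm, sub_eq_zero] at h2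
      have := Real.log_injOn_pos (Set.mem_Ioi.mpr (by have : 0 < a' := by omega
                                                      positivity))
        (Set.mem_Ioi.mpr (by have : 0 < a := by omega
                             positivity)) h2
      exact_mod_cast this
    obtain ⟨g, u, v, hg, huv, rfl, rfl⟩ := Nat.exists_coprime' (m := a) (n := a')
      (Nat.gcd_pos_of_pos_left _ (by omega))
    have h2 : n * v = n' * u := Nat.eq_of_mul_eq_mul_right hg (by linarith)
    obtain ⟨r, rfl⟩ : u ∣ n := huv.dvd_of_dvd_mul_right ⟨n', by linarith⟩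
    have hu : 0 < u := Nat.pos_of_mul_pos_right (show 0 < u * g by omega)
    have hv : 0 < v := Nat.pos_of_mul_pos_right (show 0 < v * g by omega)
    have hr : 0 < r := Nat.pos_of_mul_pos_left p1
    obtain rfl : n' = r * v := Nat.eq_of_mul_eq_mul_right hu (by linarith)
    refine ⟨⟨(g, r), (u, v)⟩, ?_, by simp [mul_comm], ?_⟩
    · simp only [mem_sigma, mem_product, mem_Ioc, Nat.le_div_iff_mul_le hg]
      refine ⟨⟨⟨hg, ?_⟩, hr, ?_⟩, ⟨hu, p4⟩, hv, q4⟩
      · nlinarith
      · nlinarith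
    · have hrg : r ≠ g := fun h => p5 (by rw [h])
      have c1 := cc_scale N g r u hN hr hg hu (by rw [mul_comm]; omega) W hW
      have c2 := cc_scale N g r v hN hr hg hv (by rw [mul_comm]; omega) W hW
      dsimp only
      rw [if_neg hrg, mul_comm u r, mul_comm u g, mul_comm v g, mul_one_div, ← div_pow, sq]
      gcongr
  · rw [sum_sigma, sum_product]
    have hh := harmonic_le_one_add_log (2 * N)
    rw [harmonic_eq_sum_Icc] at hh
    push_cast at hh
    rw [show Icc 1 (2 * N) = Ioc 0 (2 * N) from rfl] at hh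
    refine le_trans (sum_le_sum fun g hg => ?_) (by
      rw [← mul_sum]
      push_cast
      exact mul_le_mul_of_nonneg_left hh (by positivity))
    have hg0 : (0 : ℝ) < g := by exact_mod_cast (mem_Ioc.mp hg).1
    simp only [sum_const, card_product, Nat.card_Ioc, Nat.sub_zero, nsmul_eq_mul, ← mul_sum]
    have h1 := sum_two_sided (2 * g / W) (by positivity) g M
    have h2 : ((2 * N / g : ℕ) : ℝ) ≤ 2 * N / g := by
      simpa using Nat.cast_div_le (α := ℝ) (m := 2 * N) (n := g)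
    push_cast
    calc _ ≤ (2 * N / g) * (2 * N / g) * ((6 * g * E) ^ 2 * (2 / (2 * g / W))) := by gcongr
      _ = _ := by field_simp; ring

/-- the Dirichlet polynomial -/
noncomputable def SS (ρ : ℝ) (M : ℕ) (τ : ℝ) : ℂ := ∑ m ∈ Ioc 0 M, bb ρ m * ee (Real.log m) τ

/-- the oscillating part of the correlation -/
noncomputable def YY (N M : ℕ) (W x : ℝ) : ℂ :=
  ∑ p ∈ PO N M, cc (Real.log N) W p * ee (Real.log p.1 - Real.log p.2) x

theorem YY_cont (N M : ℕ) (W : ℝ) : Continuous (YY N M W) :=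
  continuous_finsetSum _ fun _ _ => (ee_cont _).const_mul _

theorem YY_mean (N M : ℕ) (hN : 0 < N) (hM : 0 < M) (W : ℝ) (hW : 0 < W) (a H : ℝ) (hH : 0 ≤ H) :
    ∫ x in a..a + H, ‖YY N M W x‖ ^ 2 ≤ (N * W * Real.exp (Real.log N ^ 2 / 2)) ^ 2 *
      (144 * H * (1 + Real.log (2 * N : ℕ)) / W + 4 * M ^ 3 * N) := by
  have h := mean_value (PO N M) (cc (Real.log N) W) (fun p => Real.log p.1 - Real.log p.2)
    (1 / (M * (2 * N) : ℕ)) (by positivity) (by
      rintro ⟨n, a⟩ hp ⟨n', a'⟩ hq hne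
      simp only [PO, mem_product, mem_filter, mem_Ioc] at hp hq
      obtain ⟨⟨⟨p1, p2⟩, p3, p4⟩, -⟩ := hp
      obtain ⟨⟨⟨q1, q2⟩, q3, q4⟩, -⟩ := hq
      have a1 : 0 < a := by omega
      have a2 : 0 < a' := by omega
      dsimp only at hne ⊢
      rw [← sub_ne_zero] at hne
      rw [log_eq p1 a1 q1 a2] at hne ⊢
      rcases lt_trichotomy (n * a') (n' * a) with h | h | h
      · rw [abs_sub_comm]
        exact (log_sep (by positivity) h (Nat.mul_le_mul q2 p4)).trans (le_abs_self _)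
      · simp [h] at hne
      · exact (log_sep (by positivity) h (Nat.mul_le_mul p2 q4)).trans (le_abs_self _)) a H hH
  have h1 := energy N M hN W hW
  set E := Real.exp (Real.log N ^ 2 / 2) with hE
  have h2 : ∑ p ∈ PO N M, ‖cc (Real.log N) W p‖ ≤ M * N * (E * W) := by
    refine (sum_le_card_nsmul _ _ _ fun p _ => cc_le _ _ hW.le p).trans ?_
    rw [nsmul_eq_mul]
    gcongr
    have := card_filter_le (Ioc 0 M ×ˢ Ioc N (2 * N)) fun p => p.1 ≠ p.2
    rw [card_product, Nat.card_Ioc, Nat.card_Ioc, Nat.sub_zero, show 2 * N - N = N by omega] at this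
    exact_mod_cast this
  refine h.trans ?_
  calc _ ≤ H * (144 * N ^ 2 * W * E ^ 2 * (1 + Real.log (2 * N : ℕ))) +
        2 / (1 / (M * (2 * N) : ℕ)) * (M * N * (E * W)) ^ 2 := by gcongr
    _ = _ := by push_cast; field_simp; ring

theorem YY_large (N M : ℕ) (hN : 0 < N) (hM : 2 * N ≤ M) (W : ℝ) (hW : 0 < W) (x : ℝ)
    (h : ∀ τ ∈ Set.Icc x (x + W), ‖SS (Real.log N) M τ‖ ≤ Real.exp (Real.log N ^ 2 / 2) / 4) :
    N * W * Real.exp (Real.log N ^ 2 / 2) / 2 ≤ ‖YY N M W x‖ := by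
  set E := Real.exp (Real.log N ^ 2 / 2) with hE
  have e1 : ∀ τ, SS (Real.log N) M τ * ∑ a ∈ Ioc N (2 * N), ee (-Real.log a) τ =
      ∑ p ∈ Ioc 0 M ×ˢ Ioc N (2 * N), bb (Real.log N) p.1 * ee (Real.log p.1 - Real.log p.2) τ := by
    intro τ
    rw [SS, sum_mul_sum, sum_product]
    simp only [mul_assoc, ee_mul, sub_eq_add_neg]
  have e2 : ∫ τ in x..x + W, SS (Real.log N) M τ * ∑ a ∈ Ioc N (2 * N), ee (-Real.log a) τ =
      YY N M W x + ((∑ a ∈ Ioc N (2 * N), bb (Real.log N) a * W : ℝ) : ℂ) := by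
    simp only [e1]
    rw [int_sum, ← sum_filter_add_sum_filter_not _ fun p => p.1 ≠ p.2]
    congr 1
    · refine sum_congr rfl fun p _ => ?_
      rw [KI_shift, cc, mul_assoc]
    · rw [ofReal_sum]
      symm
      refine sum_bij (fun a _ => (a, a)) ?_ ?_ ?_ ?_
      · intro a ha
        simp only [mem_filter, mem_product, mem_Ioc] at ha ⊢
        omega
      · intro a _ b _ h
        exact (Prod.ext_iff.mp h).1
      · rintro ⟨n, a⟩ hp
        simp only [mem_filter, mem_product, not_not] at hp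
        exact ⟨a, hp.1.2, by rw [hp.2]⟩
      · intro a _
        simp [KI_zero]
  have b1 : ‖∫ τ in x..x + W, SS (Real.log N) M τ * ∑ a ∈ Ioc N (2 * N), ee (-Real.log a) τ‖ ≤
      E / 4 * N * |x + W - x| := by
    refine intervalIntegral.norm_integral_le_of_norm_le_const fun τ hτ => ?_
    rw [Set.uIoc_of_le (by linarith)] at hτ
    rw [norm_mul]
    gcongr
    · exact h τ ⟨hτ.1.le, hτ.2⟩
    · refine (norm_sum_le _ _).trans ?_
      simp [ee_norm, show 2 * N - N = N by omega]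
  have b2 : N * (3 / 4 * E * W) ≤ ∑ a ∈ Ioc N (2 * N), bb (Real.log N) a * W := by
    have := card_nsmul_le_sum (Ioc N (2 * N)) (fun a => bb (Real.log N) a * W) (3 / 4 * E * W) (by
      intro a ha
      rw [mem_Ioc] at ha
      have hN' : (0 : ℝ) < N := by exact_mod_cast hN
      have a1 : (N : ℝ) ≤ a := by exact_mod_cast ha.1.le
      have a2 : (a : ℝ) ≤ 2 * N := by exact_mod_cast ha.2
      have l1 := Real.log_le_log hN' a1
      have l2 := Real.log_le_log (by linarith) a2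
      rw [Real.log_mul (by norm_num) hN'.ne'] at l2
      have l3 := Real.add_one_le_exp (-(Real.log a - Real.log N) ^ 2 / 2)
      rw [bb_eq, mul_comm (3 / 4)]
      gcongr
      nlinarith [Real.log_two_lt_d9])
    simpa [show 2 * N - N = N by omega] using this
  rw [e2, add_sub_cancel_left, abs_of_pos hW] at b1
  have b3 := norm_sub_le (YY N M W x + ((∑ a ∈ Ioc N (2 * N), bb (Real.log N) a * W : ℝ) : ℂ))
    (YY N M W x)
  rw [add_sub_cancel_left, norm_real, Real.norm_eq_abs] at b3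
  linarith [le_abs_self (∑ a ∈ Ioc N (2 * N), bb (Real.log N) a * W)]

theorem good_windows (N M J : ℕ) (hN : 0 < N) (hM : 2 * N ≤ M) (W x0 : ℝ)
    (hW : 10000 * (1 + Real.log (2 * N : ℕ)) ≤ W) (hJ : 64 * M ^ 3 * N ≤ J * W) :
    ∃ G ⊆ range J, J ≤ 2 * G.card ∧ ∀ j ∈ G, ∃ τ ∈ Set.Icc (x0 + 4 * j * W + W)
      (x0 + 4 * j * W + 3 * W), Real.exp (Real.log N ^ 2 / 2) / 4 ≤ ‖SS (Real.log N) M τ‖ := by
  classical
  have hl : 0 ≤ Real.log (2 * N : ℕ) := Real.log_natCast_nonneg _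
  have hW0 : 0 < W := by linarith
  set E := Real.exp (Real.log N ^ 2 / 2) with hE
  let good : ℕ → Prop := fun j => ∃ τ ∈ Set.Icc (x0 + 4 * j * W + W)
      (x0 + 4 * j * W + 3 * W), E / 4 ≤ ‖SS (Real.log N) M τ‖
  refine ⟨(range J).filter good, filter_subset _ _, ?_, fun j hj => (mem_filter.mp hj).2⟩
  have hc : Continuous fun x => ‖YY N M W x‖ ^ 2 := (YY_cont N M W).norm.pow 2
  have h1 := YY_mean N M hN (by omega) W hW0 x0 (4 * J * W) (by positivity)
  have h2 := intervalIntegral.sum_integral_adjacent_intervals (μ := volume)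
    (a := fun j : ℕ => x0 + 4 * j * W) (n := J) fun k _ => hc.intervalIntegrable _ _
  simp only [Nat.cast_zero, mul_zero, zero_mul, add_zero] at h2
  rw [← h2] at h1
  have h3 : ∀ j ∈ (range J).filter fun j => ¬good j, W * (N * W * E / 2) ^ 2 ≤
      ∫ x in x0 + 4 * j * W..x0 + 4 * (j + 1 : ℕ) * W, ‖YY N M W x‖ ^ 2 := by
    intro j hj
    have hb := (mem_filter.mp hj).2
    simp only [good, not_exists, not_and, not_le] at hb
    have i1 : ∫ _ in x0 + 4 * j * W + W..x0 + 4 * j * W + 2 * W, (N * W * E / 2) ^ 2 ≤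
        ∫ x in x0 + 4 * j * W + W..x0 + 4 * j * W + 2 * W, ‖YY N M W x‖ ^ 2 := by
      refine intervalIntegral.integral_mono_on (by linarith) intervalIntegrable_const
        (hc.intervalIntegrable _ _) fun x hx => ?_
      gcongr
      exact YY_large N M hN hM W hW0 x fun τ hτ =>
        (hb τ ⟨by linarith [hx.1, hτ.1], by linarith [hx.2, hτ.2]⟩).le
    rw [intervalIntegral.integral_const, smul_eq_mul,
      show x0 + 4 * j * W + 2 * W - (x0 + 4 * j * W + W) = W by ring] at i1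
    refine i1.trans (intervalIntegral.integral_mono_interval (by linarith) (by linarith)
      (by push_cast; linarith) (Filter.Eventually.of_forall fun x => by positivity)
      (hc.intervalIntegrable _ _))
  have h4 := (card_nsmul_le_sum _ _ _ h3).trans ((sum_le_sum_of_subset_of_nonneg
    (filter_subset _ _) fun j _ _ => intervalIntegral.integral_nonneg
      (by push_cast; nlinarith [Nat.cast_nonneg (α := ℝ) j]) fun x _ => by positivity).trans h1)
  have h5 := card_filter_add_card_filter_not (s := range J) good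
  rw [card_range] at h5
  set b := ((range J).filter fun j => ¬good j).card
  have h6 : 144 * (4 * J * W) * (1 + Real.log (2 * N : ℕ)) / W ≤ J * W / 16 := by
    rw [div_le_iff₀ hW0]
    have : 0 ≤ (J : ℝ) * W := by positivity
    nlinarith
  have hp : 0 < (N * W * E) ^ 2 * W := by positivity
  have h7 : (b : ℝ) * 2 ≤ J := by
    refine le_of_mul_le_mul_left ?_ hp
    rw [nsmul_eq_mul] at h4
    have h8 : (N * W * E) ^ 2 * (144 * (4 * J * W) * (1 + Real.log (2 * N : ℕ)) / W +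
      4 * M ^ 3 * N) ≤ (N * W * E) ^ 2 * (J * W / 16 + J * W / 16) := by
      gcongr
      linarith
    linarith
  have h8 : b * 2 ≤ J := by exact_mod_cast h7
  omega

end Pool.Agent.H.MP_023270_nt
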