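import Mathlib

set_option autoImplicit false

namespace Pool.Agent.H.MP_023270_nt

open Complex Metric Set
open scoped ENNReal

/-- number of zeros in a set, with multiplicity -/
noncomputable def nu (f : ℂ → ℂ) (S : Set ℂ) : ℝ≥0∞ :=
  ∑' z : ℂ, S.indicator (fun z => (analyticOrderAt f z : ℝ≥0∞)) z

/-- monic polynomial with given roots -/
noncomputable def PP (s : Multiset ℂ) (z : ℂ) : ℂ := (s.map (fun a => z - a)).prod

theorem PP_cons (a : ℂ) (s : Multiset ℂ) (z : ℂ) : PP (a ::ₘ s) z = (z - a) * PP s z := by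
  simp [PP]

theorem PP_diff (s : Multiset ℂ) : Differentiable ℂ (PP s) := by
  induction s using Multiset.induction_on with
  | empty =>
    have : PP 0 = fun _ => 1 := funext fun z => by simp [PP]
    rw [this]
    fun_prop
  | cons a s ih =>
    have : PP (a ::ₘ s) = fun z => (z - a) * PP s z := funext (PP_cons a s)
    rw [this]
    fun_prop

theorem PP_le (s : Multiset ℂ) (z : ℂ) (r : ℝ) (h : ∀ a ∈ s, ‖z - a‖ ≤ r) :
    ‖PP s z‖ ≤ r ^ s.card := by
  induction s using Multiset.induction_on with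
  | empty => simp [PP]
  | cons a s ih =>
    rw [PP_cons, norm_mul, Multiset.card_cons, pow_succ']
    have h1 := h a (by simp)
    exact mul_le_mul h1 (ih fun b hb => h b (by simp [hb])) (norm_nonneg _)
      ((norm_nonneg _).trans h1)

theorem PP_ge (s : Multiset ℂ) (z : ℂ) (r : ℝ) (hr : 0 ≤ r) (h : ∀ a ∈ s, r ≤ ‖z - a‖) :
    r ^ s.card ≤ ‖PP s z‖ := by
  induction s using Multiset.induction_on with
  | empty => simp [PP]
  | cons a s ih =>
    rw [PP_cons, norm_mul, Multiset.card_cons, pow_succ']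
    exact mul_le_mul (h a (by simp)) (ih fun b hb => h b (by simp [hb])) (by positivity)
      (norm_nonneg _)

theorem PP_zero (s : Multiset ℂ) (a : ℂ) (h : a ∈ s) : PP s a = 0 := by
  unfold PP
  rw [Multiset.prod_eq_zero_iff, Multiset.mem_map]
  exact ⟨a, h, sub_self a⟩

theorem PP_order (s : Multiset ℂ) (z : ℂ) : analyticOrderAt (PP s) z = s.count z := by
  induction s using Multiset.induction_on with
  | empty =>
    have : PP 0 = fun _ => 1 := funext fun z => by simp [PP]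
    rw [this]
    simpa using (analyticAt_const (v := (1 : ℂ)) (x := z)).analyticOrderAt_eq_zero.mpr one_ne_zero
  | cons a s ih =>
    have : PP (a ::ₘ s) = (fun z => z - a) * PP s := funext (PP_cons a s)
    rw [this, analyticOrderAt_mul (by fun_prop) ((PP_diff s).analyticAt z), ih]
    by_cases h : z = a
    · subst h
      rw [Multiset.count_cons_self, analyticOrderAt_id_sub_const_self]
      push_cast
      ring
    · rw [Multiset.count_cons_of_ne h, analyticOrderAt_id_sub_const_of_ne h, zero_add]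

theorem fac_bound {g g1 : ℂ → ℂ} {s : Multiset ℂ} {c : ℂ} {R δ M : ℝ} (hδ : 0 < δ) (hR : 0 ≤ R)
    (h1 : Differentiable ℂ g1) (hs : ∀ a ∈ s, ‖a - c‖ ≤ R) (hg : ∀ z, g z = PP s z * g1 z)
    (hM : ∀ z ∈ sphere c (R + δ), ‖g z‖ ≤ M) {z : ℂ} (hz : z ∈ closedBall c (R + δ)) :
    δ ^ s.card * ‖g1 z‖ ≤ M := by
  rw [← le_div_iff₀' (by positivity)]
  have hne : R + δ ≠ 0 := by positivity
  refine norm_le_of_forall_mem_frontier_norm_le (U := ball c (R + δ)) isBounded_ball
    h1.diffContOnCl ?_ (by rwa [closure_ball _ hne])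
  intro w hw
  rw [frontier_ball _ hne] at hw
  rw [le_div_iff₀' (by positivity)]
  refine le_trans ?_ (hM w hw)
  rw [hg, norm_mul]
  gcongr
  refine PP_ge s w δ hδ.le fun a ha => ?_
  have h2 := hs a ha
  rw [mem_sphere_iff_norm] at hw
  have : ‖w - c‖ ≤ ‖w - a‖ + ‖a - c‖ := norm_sub_le_norm_sub_add_norm_sub _ _ _
  linarith

theorem card_bound {g g1 : ℂ → ℂ} {s : Multiset ℂ} {c : ℂ} {R M : ℝ} (hR : 0 < R)
    (h1 : Differentiable ℂ g1) (hs : ∀ a ∈ s, ‖a - c‖ ≤ R) (hg : ∀ z, g z = PP s z * g1 z)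
    (hM : ∀ z ∈ sphere c (3 * R), ‖g z‖ ≤ M) : 2 ^ s.card * ‖g c‖ ≤ M := by
  have h := fac_bound (δ := 2 * R) (by positivity) hR.le h1 hs hg
    (by rwa [show R + 2 * R = 3 * R by ring]) (mem_closedBall_self (by positivity))
  refine le_trans ?_ h
  rw [hg, norm_mul, mul_pow, mul_assoc]
  gcongr
  exact PP_le s c R fun a ha => by rw [norm_sub_rev]; exact hs a ha

theorem exists_fac {g : ℂ → ℂ} (hd : Differentiable ℂ g) {c : ℂ} (hc : g c ≠ 0) {R : ℝ}
    (hR : 0 < R) : ∃ (s : Multiset ℂ) (g1 : ℂ → ℂ), (∀ a ∈ s, ‖a - c‖ ≤ R) ∧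
      Differentiable ℂ g1 ∧ (∀ z, g z = PP s z * g1 z) ∧ ∀ z ∈ closedBall c R, g1 z ≠ 0 := by
  obtain ⟨M, hM⟩ := (isCompact_sphere c (3 * R)).exists_bound_of_continuousOn
    hd.continuous.continuousOn
  let A : Set ℕ := {n | ∃ (s : Multiset ℂ) (g1 : ℂ → ℂ), s.card = n ∧ (∀ a ∈ s, ‖a - c‖ ≤ R) ∧
      Differentiable ℂ g1 ∧ (∀ z, g z = PP s z * g1 z)}
  have hA : A.Nonempty := ⟨0, 0, g, rfl, by simp, hd, by simp [PP]⟩
  have hB : BddAbove A := by
    obtain ⟨k, hk⟩ := exists_nat_ge (M / ‖g c‖)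
    refine ⟨k, ?_⟩
    rintro n ⟨s, g1, rfl, hs, h1, hg⟩
    have h2 := card_bound hR h1 hs hg hM
    rw [← le_div_iff₀ (norm_pos_iff.mpr hc)] at h2
    have h3 : (s.card : ℝ) ≤ 2 ^ s.card := by exact_mod_cast Nat.lt_two_pow_self.le
    exact_mod_cast h3.trans (h2.trans hk)
  obtain ⟨s, g1, hn, hs, h1, hg⟩ := Nat.sSup_mem hA hB
  refine ⟨s, g1, hs, h1, hg, fun a ha h0 => ?_⟩
  have h2 : sSup A + 1 ∈ A := by
    refine ⟨a ::ₘ s, dslope g1 a, by rw [Multiset.card_cons, hn], ?_, ?_, fun z => ?_⟩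
    · intro b hb
      rcases Multiset.mem_cons.mp hb with rfl | hb
      · exact mem_closedBall_iff_norm.mp ha
      · exact hs b hb
    · rw [← differentiableOn_univ, differentiableOn_dslope Filter.univ_mem]
      exact h1.differentiableOn
    · have := sub_smul_dslope g1 a z
      rw [h0, sub_zero, smul_eq_mul] at this
      rw [hg, PP_cons, ← this]
      ring
  have := le_csSup hB h2
  omega

theorem nu_eq {g g1 : ℂ → ℂ} {s : Multiset ℂ} {K : Set ℂ} (hs : ∀ a ∈ s, a ∈ K)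
    (h1 : Differentiable ℂ g1) (hg : ∀ z, g z = PP s z * g1 z) (h0 : ∀ z ∈ K, g1 z ≠ 0) :
    nu g K = s.card := by
  have e : g = PP s * g1 := funext hg
  have h2 : ∀ z, K.indicator (fun z => (analyticOrderAt g z : ℝ≥0∞)) z = (s.count z : ℝ≥0∞) := by
    intro z
    by_cases hz : z ∈ K
    · rw [indicator_of_mem hz, e, analyticOrderAt_mul ((PP_diff s).analyticAt z) (h1.analyticAt z),
        PP_order, (h1.analyticAt z).analyticOrderAt_eq_zero.mpr (h0 z hz)]
      simp
    · rw [indicator_of_notMem hz, Multiset.count_eq_zero_of_notMem fun h => hz (hs z h)]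
      simp
  unfold nu
  simp only [h2]
  rw [tsum_eq_sum (s := s.toFinset)]
  · rw [← Nat.cast_sum, Multiset.toFinset_sum_count_eq]
  · intro b hb
    rw [Multiset.count_eq_zero_of_notMem (by simpa using hb)]
    simp

theorem nu_upper {g : ℂ → ℂ} (hd : Differentiable ℂ g) {c : ℂ} {R m1 m2 : ℝ} (hR : 0 < R)
    (hM : ∀ z ∈ sphere c (3 * R), ‖g z‖ ≤ Real.exp m1) (hc : Real.exp (-m2) ≤ ‖g c‖) :
    nu g (closedBall c R) ≤ ENNReal.ofReal (2 * (m1 + m2)) := by
  have hc0 : g c ≠ 0 := norm_pos_iff.mp ((Real.exp_pos _).trans_le hc)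
  obtain ⟨s, g1, hs, h1, hg, h0⟩ := exists_fac hd hc0 hR
  rw [nu_eq (fun a ha => mem_closedBall_iff_norm.mpr (hs a ha)) h1 hg h0, ← ENNReal.ofReal_natCast]
  apply ENNReal.ofReal_le_ofReal
  have h2 := card_bound hR h1 hs hg hM
  have h3 : Real.exp (s.card * (1 / 2)) ≤ 2 ^ s.card := by
    rw [Real.exp_nat_mul]
    gcongr
    have := Real.exp_one_lt_d9
    have h4 : Real.exp (1 / 2) * Real.exp (1 / 2) = Real.exp 1 := by
      rw [← Real.exp_add]; norm_num
    nlinarith [Real.exp_pos (1 / 2)]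
  have h5 : Real.exp (s.card * (1 / 2)) * Real.exp (-m2) ≤ Real.exp m1 :=
    (mul_le_mul h3 hc (Real.exp_pos _).le (by positivity)).trans h2
  rw [← Real.exp_add, Real.exp_le_exp] at h5
  linarith

theorem exists_log {g : ℂ → ℂ} (hd : Differentiable ℂ g) {c : ℂ} {R : ℝ} (hR : 0 < R)
    (h0 : ∀ z ∈ ball c R, g z ≠ 0) :
    ∃ p : ℂ → ℂ, DifferentiableOn ℂ p (ball c R) ∧ p c = 0 ∧
      ∀ z ∈ ball c R, g z = g c * cexp (p z) := by
  have h1 : DifferentiableOn ℂ (fun z => deriv g z / g z) (ball c R) :=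
    (hd.deriv.differentiableOn).div hd.differentiableOn h0
  obtain ⟨p, hp0, hp⟩ := h1.isExactOn_ball.with_val_at c 0
  refine ⟨p, fun z hz => (hp z hz).differentiableAt.differentiableWithinAt, hp0, fun z hz => ?_⟩
  have h2 : ∀ z ∈ ball c R, HasDerivAt (fun z => g z * cexp (-p z)) 0 z := by
    intro z hz
    have := (hd z).hasDerivAt.mul (hp z hz).neg.cexp
    have e : deriv g z * cexp (-p z) + g z * (cexp (-p z) * -(deriv g z / g z)) = 0 := by
      have := h0 z hz
      field_simp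
      ring
    rw [← e]
    exact this
  have h3 := IsOpen.is_const_of_deriv_eq_zero (𝕜 := ℂ) isOpen_ball (convex_ball c R).isPreconnected
    (fun z hz => (h2 z hz).differentiableAt.differentiableWithinAt)
    (fun z hz => (h2 z hz).deriv) hz (mem_ball_self hR)
  simp only [hp0, neg_zero, Complex.exp_zero, mul_one] at h3
  rw [← h3, mul_assoc, ← Complex.exp_add]
  simp

theorem bc {p : ℂ → ℂ} {c : ℂ} {R A : ℝ} (hR : 0 < R) (hA : 0 < A)
    (hp : DifferentiableOn ℂ p (ball c R)) (h0 : p c = 0) (hre : ∀ z ∈ ball c R, (p z).re ≤ A)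
    {z : ℂ} (hz : ‖z - c‖ < R) : ‖p z‖ ≤ 2 * A * ‖z - c‖ / (R - ‖z - c‖) := by
  have hm : ∀ w ∈ ball (0 : ℂ) R, w + c ∈ ball c R := by
    intro w hw
    simpa using hw
  have := borelCaratheodory_zero (f := fun w => p (w + c)) (M := A) (R := R) (z := z - c) hA
    (hp.comp (by fun_prop) hm) (fun w hw => hre _ (hm w hw)) hR (by simpa using hz) (by simpa)
  simpa using this

theorem nu_lower {g : ℂ → ℂ} (hd : Differentiable ℂ g) {c z1 : ℂ} {ρ M m : ℝ} (hρ : 0 < ρ)
    (hM0 : 0 ≤ M) (hM : ∀ z ∈ sphere c (8 * ρ), ‖g z‖ ≤ Real.exp M)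
    (h1 : ∀ z ∈ closedBall c (ρ / 2), ‖g z - 1‖ ≤ 1 / 2) (hz1 : ‖z1 - c‖ = 2 * ρ)
    (hm : Real.exp m ≤ ‖g z1‖) :
    ENNReal.ofReal ((m - M / 500) / 2 ^ 40 - 1) ≤ nu g (closedBall c (7 * ρ)) := by
  have hlo : ∀ z ∈ closedBall c (ρ / 2), 1 / 2 ≤ ‖g z‖ ∧ ‖g z‖ ≤ 3 / 2 := by
    intro z hz
    have a1 := h1 z hz
    have a2 := norm_sub_norm_le (g z) 1
    have a3 := norm_sub_norm_le 1 (g z)
    rw [norm_sub_rev] at a3
    simp only [norm_one] at a2 a3
    constructor <;> linarith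
  have hc0 : g c ≠ 0 := norm_pos_iff.mp (by linarith [(hlo c (mem_closedBall_self (by positivity))).1])
  obtain ⟨s, g1, hs, hd1, hg, h0⟩ := exists_fac hd hc0 (R := 7 * ρ) (by positivity)
  rw [nu_eq (fun a ha => mem_closedBall_iff_norm.mpr (hs a ha)) hd1 hg h0, ← ENNReal.ofReal_natCast]
  apply ENNReal.ofReal_le_ofReal
  set n := s.card with hn
  have hn0 : (0 : ℝ) ≤ n := Nat.cast_nonneg n
  set η : ℝ := 1 + 3 * n with hη
  have hη0 : 0 < η := by positivity
  have e3 : ∀ x : ℝ, 0 ≤ x → x ≤ 9 → x ^ n ≤ Real.exp (3 * n) := by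
    intro x hx0 hx
    rw [mul_comm, Real.exp_nat_mul]
    gcongr
    have := Real.exp_one_gt_d9
    have h4 : Real.exp 3 = Real.exp 1 ^ 3 := by rw [← Real.exp_nat_mul]; norm_num
    have h5 : (2.7 : ℝ) ^ 3 ≤ Real.exp 1 ^ 3 := by gcongr; linarith
    norm_num at h5
    linarith
  have hbig : ∀ z ∈ closedBall c (8 * ρ), ρ ^ n * ‖g1 z‖ ≤ Real.exp M := by
    intro z hz
    exact fac_bound hρ (by positivity) hd1 hs hg (by rwa [show 7 * ρ + ρ = 8 * ρ by ring])
      (by rwa [show 7 * ρ + ρ = 8 * ρ by ring])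
  have hρn : 0 < ρ ^ n := by positivity
  have hsmall : ∀ z ∈ closedBall c (ρ / 4),
      Real.exp (-η) ≤ ρ ^ n * ‖g1 z‖ ∧ ρ ^ n * ‖g1 z‖ ≤ Real.exp η := by
    intro z hz
    obtain ⟨a1, a2⟩ := hlo z (closedBall_subset_closedBall (by linarith) hz)
    rw [mem_closedBall_iff_norm] at hz
    have b1 : ‖PP s z‖ ≤ (8 * ρ) ^ n := PP_le s z _ fun a ha => by
      have := norm_sub_le_norm_sub_add_norm_sub z c a
      rw [norm_sub_rev c a] at this
      linarith [hs a ha]
    have b2 : (ρ / 4) ^ n ≤ ‖PP s z‖ := PP_ge s z _ (by positivity) fun a ha => by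
      have a3 : ρ / 2 < ‖a - c‖ := by
        by_contra hcon
        have := (hlo a (mem_closedBall_iff_norm.mpr (not_lt.mp hcon))).1
        rw [hg, PP_zero s a ha] at this
        norm_num at this
      have := norm_sub_le_norm_sub_add_norm_sub a z c
      rw [norm_sub_rev a z] at this
      linarith
    rw [hg, norm_mul] at a1 a2
    have he := Real.add_one_le_exp 1
    have hE : 0 < Real.exp (3 * n) := Real.exp_pos _
    have hx : 0 ≤ ρ ^ n * ‖g1 z‖ := by positivity
    constructor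
    · have c1 : 1 / 2 ≤ Real.exp (3 * n) * (ρ ^ n * ‖g1 z‖) := by
        calc 1 / 2 ≤ (8 * ρ) ^ n * ‖g1 z‖ := a1.trans (by gcongr)
          _ = 8 ^ n * (ρ ^ n * ‖g1 z‖) := by rw [mul_pow]; ring
          _ ≤ _ := by gcongr; exact e3 8 (by norm_num) (by norm_num)
      rw [Real.exp_neg, inv_le_iff_one_le_mul₀ (Real.exp_pos _), hη, Real.exp_add]
      nlinarith
    · have c1 : ρ ^ n * ‖g1 z‖ ≤ Real.exp (3 * n) * (3 / 2) := by
        calc ρ ^ n * ‖g1 z‖ = 4 ^ n * ((ρ / 4) ^ n * ‖g1 z‖) := by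
              rw [← mul_assoc, ← mul_pow]; congr 2; ring
          _ ≤ Real.exp (3 * n) * (‖PP s z‖ * ‖g1 z‖) := by
              gcongr; exact e3 4 (by norm_num) (by norm_num)
          _ ≤ _ := by gcongr
      rw [hη, Real.exp_add]
      nlinarith
  obtain ⟨p, hpd, hp0, hp⟩ := exists_log hd1 (c := c) (R := 7 * ρ) (by positivity)
    fun z hz => h0 z (ball_subset_closedBall hz)
  obtain ⟨k1, k2⟩ := hsmall c (mem_closedBall_self (by positivity))
  have hnorm : ∀ z ∈ ball c (7 * ρ), ρ ^ n * ‖g1 z‖ = (ρ ^ n * ‖g1 c‖) * Real.exp (p z).re := by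
    intro z hz
    rw [hp z hz, norm_mul, Complex.norm_exp]
    ring
  have hre : ∀ z ∈ ball c (7 * ρ), ∀ A, ρ ^ n * ‖g1 z‖ ≤ Real.exp A → (p z).re ≤ A + η := by
    intro z hz A hA
    rw [hnorm z hz] at hA
    have : Real.exp (-η) * Real.exp (p z).re ≤ Real.exp A := le_trans (by gcongr) hA
    rw [← Real.exp_add, Real.exp_le_exp] at this
    linarith
  have hout : ∀ z, ‖z - c‖ = 6 * ρ → ‖p z‖ ≤ 12 * (M + η) := by
    intro z hz
    have := bc (A := M + η) (by positivity) (by positivity) hpd hp0 (fun w hw => hre w hw _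
      (hbig w (ball_subset_closedBall (ball_subset_ball (by linarith) hw)))) (z := z) (by linarith)
    rw [hz] at this
    refine this.trans (le_of_eq ?_)
    field_simp
    ring
  have hin : ∀ z, ‖z - c‖ = ρ / 8 → ‖p z‖ ≤ 4 * η := by
    intro z hz
    have := bc (R := ρ / 4) (A := η + η) (by positivity) (by positivity)
      (hpd.mono (ball_subset_ball (by linarith))) hp0
      (fun w hw => hre w (ball_subset_ball (by linarith) hw) _
        (hsmall w (ball_subset_closedBall hw)).2) (z := z) (by linarith)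
    rw [hz] at this
    refine this.trans (le_of_eq ?_)
    field_simp
    ring
  have hmid : ‖p z1‖ ≤ 4 * η * 16 ^ 8 + 12 * (M + η) / 3 ^ 8 := by
    have hU : IsOpen (ball c (6 * ρ) \ closedBall c (ρ / 8)) := isOpen_ball.sdiff isClosed_closedBall
    have hcl : closure (ball c (6 * ρ) \ closedBall c (ρ / 8)) ⊆
        closedBall c (6 * ρ) \ ball c (ρ / 8) := by
      refine closure_minimal (fun w hw => ⟨ball_subset_closedBall hw.1, fun h =>
        hw.2 (ball_subset_closedBall h)⟩) (isClosed_closedBall.sdiff isOpen_ball)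
    have hdq : DifferentiableOn ℂ (fun z => p z / (z - c) ^ 8)
        (closedBall c (6 * ρ) \ ball c (ρ / 8)) := by
      refine (hpd.mono fun w hw => closedBall_subset_ball (by linarith) hw.1).div (by fun_prop) ?_
      intro w hw h
      have : w = c := sub_eq_zero.mp (pow_eq_zero_iff (by norm_num) |>.mp h)
      exact hw.2 (this ▸ mem_ball_self (by positivity))
    have key := norm_le_of_forall_mem_frontier_norm_le
      (U := ball c (6 * ρ) \ closedBall c (ρ / 8)) (isBounded_ball.subset sdiff_subset)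
      (hdq.mono hcl).diffContOnCl
      (C := (4 * η * 16 ^ 8 + 12 * (M + η) / 3 ^ 8) / (2 * ρ) ^ 8) ?_ (z := z1)
      (subset_closure ⟨by rw [mem_ball_iff_norm]; linarith,
        by rw [mem_closedBall_iff_norm]; linarith⟩)
    · rw [norm_div, norm_pow, hz1] at key
      exact (div_le_div_iff_of_pos_right (by positivity)).mp key
    · intro w hw
      rw [hU.frontier_eq] at hw
      obtain ⟨hw1, hw2⟩ := hw
      obtain ⟨w1, w2⟩ := hcl hw1
      rw [mem_closedBall_iff_norm] at w1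
      rw [mem_ball_iff_norm, not_lt] at w2
      rw [norm_div, norm_pow]
      rcases eq_or_lt_of_le w1 with h | h
      · rw [h, div_le_div_iff₀ (by positivity) (by positivity)]
        calc ‖p w‖ * (2 * ρ) ^ 8 ≤ 12 * (M + η) * (2 * ρ) ^ 8 := by gcongr; exact hout w h
          _ = (12 * (M + η) / 3 ^ 8) * (6 * ρ) ^ 8 := by ring
          _ ≤ _ := by gcongr; linarith [show 0 ≤ 4 * η * 16 ^ 8 by positivity]
      · have h' : ‖w - c‖ = ρ / 8 := by
          by_contra hcon
          exact hw2 ⟨mem_ball_iff_norm.mpr h, fun h2 =>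
            hcon (le_antisymm (mem_closedBall_iff_norm.mp h2) w2)⟩
        rw [h', div_le_div_iff₀ (by positivity) (by positivity)]
        calc ‖p w‖ * (2 * ρ) ^ 8 ≤ 4 * η * (2 * ρ) ^ 8 := by gcongr; exact hin w h'
          _ = (4 * η * 16 ^ 8) * (ρ / 8) ^ 8 := by ring
          _ ≤ _ := by gcongr; linarith [show 0 ≤ 12 * (M + η) / 3 ^ 8 by positivity]
  have hz1' : z1 ∈ ball c (7 * ρ) := by rw [mem_ball_iff_norm]; linarith
  have b1 : ‖PP s z1‖ ≤ (9 * ρ) ^ n := PP_le s z1 _ fun a ha => by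
    have := norm_sub_le_norm_sub_add_norm_sub z1 c a
    rw [norm_sub_rev c a] at this
    linarith [hs a ha]
  have fin : Real.exp m ≤ Real.exp (3 * n + η + ‖p z1‖) := by
    calc Real.exp m ≤ ‖PP s z1‖ * ‖g1 z1‖ := by rw [← norm_mul, ← hg]; exact hm
      _ ≤ (9 * ρ) ^ n * ‖g1 z1‖ := by gcongr
      _ = 9 ^ n * (ρ ^ n * ‖g1 c‖ * Real.exp (p z1).re) := by rw [← hnorm z1 hz1', mul_pow]; ring
      _ ≤ Real.exp (3 * n) * (Real.exp η * Real.exp ‖p z1‖) := by
          gcongr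
          · exact e3 9 (by norm_num) (by norm_num)
          · exact re_le_norm _
      _ = _ := by rw [← Real.exp_add, ← Real.exp_add, ← add_assoc]
  rw [Real.exp_le_exp] at fin
  rw [sub_le_iff_le_add, div_le_iff₀ (by positivity)]
  rw [hη] at fin hmid
  norm_num at fin hmid ⊢
  linarith

theorem nu_mono (f : ℂ → ℂ) {S T : Set ℂ} (h : S ⊆ T) : nu f S ≤ nu f T :=
  ENNReal.tsum_le_tsum fun z => indicator_le_indicator_of_subset h (fun _ => zero_le) z

theorem nu_union_le (f : ℂ → ℂ) (S T : Set ℂ) : nu f (S ∪ T) ≤ nu f S + nu f T := by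
  unfold nu
  rw [← ENNReal.tsum_add]
  refine ENNReal.tsum_le_tsum fun z => ?_
  by_cases h1 : z ∈ S <;> by_cases h2 : z ∈ T <;> simp [h1, h2]

theorem nu_union (f : ℂ → ℂ) {S T : Set ℂ} (h : Disjoint S T) : nu f (S ∪ T) = nu f S + nu f T := by
  unfold nu
  rw [← ENNReal.tsum_add]
  congr 1
  funext z
  rw [indicator_union_of_disjoint h]

theorem nu_mul_exp {f e : ℂ → ℂ} (hf : Differentiable ℂ f) (he : Differentiable ℂ e)
    (h0 : ∀ z, e z ≠ 0) (S : Set ℂ) : nu (fun z => f z / e z) S = nu f S := by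
  unfold nu
  congr 1
  funext z
  congr 1
  funext w
  have h1 : AnalyticAt ℂ (fun z => f z / e z) w := (hf.div he h0).analyticAt w
  have : f = (fun z => f z / e z) * e := by
    funext u
    simp [h0 u]
  conv_rhs => rw [this]
  rw [analyticOrderAt_mul h1 (he.analyticAt w), (he.analyticAt w).analyticOrderAt_eq_zero.mpr (h0 w),
    add_zero]

end Pool.Agent.H.MP_023270_nt
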