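import Mathlib
import Pool.Agent.H.MP_023270_nt.Zeros
import Pool.Agent.H.MP_023270_nt.Model
import Pool.Agent.H.MP_023270_nt.Even
import Pool.Agent.H.MP_023270_nt.Var

set_option autoImplicit false

namespace Pool.Agent.H.MP_023270_nt

open Complex Filter Topology Metric
open scoped ENNReal

theorem nu_sum (f : ℂ → ℂ) (G : Finset ℕ) (A : ℕ → Set ℂ) : ∀ U : Set ℂ, (∀ j ∈ G, A j ⊆ U) →
    (∀ i ∈ G, ∀ j ∈ G, i ≠ j → Disjoint (A i) (A j)) → ∑ j ∈ G, nu f (A j) ≤ nu f U := by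
  induction G using Finset.induction_on with
  | empty => simp
  | insert a s ha ih =>
    intro U hU hd
    rw [Finset.sum_insert ha]
    have h1 := ih (U \ A a) (fun j hj => Set.subset_sdiff.mpr ⟨hU j (by simp [hj]),
      hd j (by simp [hj]) a (by simp) (by rintro rfl; exact ha hj)⟩)
      fun i hi j hj => hd i (by simp [hi]) j (by simp [hj])
    calc _ ≤ nu f (A a) + nu f (U \ A a) := by gcongr
      _ = _ := by rw [← nu_union f Set.disjoint_sdiff_right, Set.union_sdiff_cancel (hU a (by simp))]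

theorem SS_eq (ρ τ : ℝ) (M : ℕ) :
    ∑ n ∈ Finset.range M, cexp (-(Lg n : ℂ) ^ 2 / 2 + (ρ - τ * I) * Lg n) = SS ρ M τ := by
  induction M with
  | zero => simp [SS]
  | succ M ih =>
    rw [Finset.sum_range_succ, ih, SS, SS, Finset.sum_Ioc_succ_top (Nat.zero_le M), bb, ee,
      ofReal_exp, ← Complex.exp_add, Lg]
    push_cast
    congr 2
    ring

theorem disc (N : ℕ) (hρ : 2 ^ 23 ≤ Real.log N) (τ : ℝ) (h1 : (N : ℝ) ^ 20 / 4 ≤ τ)
    (hS : Real.exp (Real.log N ^ 2 / 2) / 4 ≤ ‖SS (Real.log N) (55 * N ^ 2) τ‖) :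
    ∃ A : Set ℂ, (∀ z ∈ A, |z.re - τ| ≤ 8 * Real.log N ∧ z.im < 0 ∧ ‖z‖ ≤ 2 * τ) ∧
      ENNReal.ofReal (Real.log N ^ 2 / 2 ^ 43) ≤ nu ff A := by
  set ρ := Real.log N with hρd
  have hN0 : (0 : ℝ) < N := by
    rcases Nat.eq_zero_or_pos N with h | h
    · simp [hρd, h] at hρ
      linarith
    · exact_mod_cast h
  have hρN : ρ ≤ N := by linarith [Real.log_le_sub_one_of_pos hN0]
  have hN4 : (10 : ℝ) ^ 9 * N ^ 4 ≤ τ := by
    have : (10 : ℝ) ^ 16 ≤ N ^ 16 := by gcongr; linarith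
    have h2 : (0 : ℝ) ≤ N ^ 4 := by positivity
    nlinarith
  have hρ2 : ρ ^ 2 * N ^ 2 ≤ (N : ℝ) ^ 4 := by
    rw [show (N : ℝ) ^ 4 = N ^ 2 * N ^ 2 by ring]
    gcongr
  have hN2 : (1 : ℝ) ≤ N ^ 2 := by nlinarith
  have hτ : 10 ^ 9 * ρ ^ 2 ≤ τ := by nlinarith [sq_nonneg ρ]
  have hρρ : 2 ^ 23 * ρ ≤ ρ ^ 2 := by nlinarith
  have hτ0 : 0 < τ := by linarith
  have hlog : 20 * ρ - 3 ≤ Real.log τ := by
    have h2 := Real.log_le_log (by positivity) h1
    rw [Real.log_div (by positivity) (by norm_num), Real.log_pow] at h2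
    have := Real.log_le_sub_one_of_pos (show (0 : ℝ) < 4 by norm_num)
    push_cast at h2
    linarith
  obtain ⟨B, hB⟩ := exists_slope τ (by linarith)
  obtain ⟨b1, b2⟩ := abs_le.mp hB.im
  have b3 := hB.lo
  have b4 := hB.hi
  have b5 := Real.log_le_sub_one_of_pos hτ0
  set c : ℂ := ⟨τ + B.im, 1 / 2 - B.re - ρ⟩ with hc
  have hz : ∀ (z : ℂ) (r : ℝ), ‖z - c‖ ≤ r → |z.re - τ| ≤ r + 3 ∧
      |B.re - 1 / 2 + z.im + ρ| ≤ r := by
    intro z r h
    have t1 := (abs_re_le_norm _).trans h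
    have t2 := (abs_im_le_norm _).trans h
    simp only [sub_re, sub_im, hc] at t1 t2
    rw [abs_le] at t1 t2 ⊢
    rw [abs_le]
    refine ⟨⟨?_, ?_⟩, ?_, ?_⟩ <;> linarith [t1.1, t1.2, t2.1, t2.2]
  refine ⟨closedBall c (7 * ρ), fun z h => ?_, ?_⟩
  · obtain ⟨t1, t2⟩ := hz z _ (mem_closedBall_iff_norm.mp h)
    obtain ⟨t3, t4⟩ := abs_le.mp t2
    obtain ⟨t5, t6⟩ := abs_le.mp t1
    refine ⟨by linarith, by linarith, (norm_le_abs_re_add_abs_im z).trans ?_⟩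
    rw [abs_of_pos (by linarith), abs_of_neg (by linarith)]
    linarith
  rw [← nu_mul_exp ff_diff (EE_diff τ B) (EE_ne τ (by linarith) B)]
  have hD : (9 * ρ) ^ 2 ≤ τ / 1200 := by linarith
  refine le_trans (ENNReal.ofReal_le_ofReal ?_) (nu_lower (M := 41 * ρ ^ 2) (m := ρ ^ 2 / 4)
    (z1 := c + (2 * ρ : ℝ) * I) (ff_diff.div (EE_diff τ B) (EE_ne τ (by linarith) B))
    (by linarith) (by positivity) (fun z h => ?_) (fun z h => ?_) ?_ ?_)
  · nlinarith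
  · obtain ⟨t1, t2⟩ := hz z _ (mem_sphere_iff_norm.mp h).le
    obtain ⟨t3, t4⟩ := abs_le.mp t2
    refine (h_upper (D := 9 * ρ) (by linarith) hB (by linarith) (by linarith) z
      (by linarith)).trans (Real.exp_le_exp.mpr ?_)
    have : (B.re - 1 / 2 + z.im + 2) ^ 2 ≤ (9 * ρ) ^ 2 := sq_le_sq' (by linarith) (by linarith)
    linarith
  · obtain ⟨t1, t2⟩ := hz z _ (mem_closedBall_iff_norm.mp h)
    obtain ⟨t3, t4⟩ := abs_le.mp t2
    exact h_one (D := 9 * ρ) (by linarith) hB (by linarith) hD z (by linarith) (by linarith)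
      (by linarith)
  · rw [add_sub_cancel_left, norm_mul, norm_I, mul_one, norm_real, Real.norm_eq_abs,
      abs_of_pos (by linarith)]
  · have e : B - (1 / 2 + I * (c + (2 * ρ : ℝ) * I)) = ρ - τ * I := by
      apply Complex.ext
      · simp [hc]; ring
      · simp [hc]
    have a1 := approx (D := 9 * ρ) (by linarith) hB (by linarith) (by linarith)
      (c + (2 * ρ : ℝ) * I) (by simp [hc]; linarith [hB.im]) 2 le_rfl (by linarith)
    have e2 : ((ρ : ℂ) - τ * I).re = ρ := by simp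
    have x4 : Real.exp 2 ≤ 7.4 := by
      have : Real.exp 2 = Real.exp 1 ^ 2 := by rw [← Real.exp_nat_mul]; norm_num
      nlinarith [Real.exp_one_lt_d9, Real.exp_pos 1]
    have x5 : Real.exp (2 * ρ + 2) ≤ N ^ 2 * 7.4 := by
      rw [Real.exp_add, show 2 * ρ = (2 : ℕ) * ρ by norm_num, Real.exp_nat_mul, Real.exp_log hN0]
      gcongr
    have a2 := FF_tail (ρ - τ * I) (by rw [e2]; linarith) (55 * N ^ 2) (by
      rw [e2, Lg, Real.le_log_iff_exp_le (by positivity), show 2 * ρ + 4 = 2 * ρ + 2 + 2 by ring,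
        Real.exp_add]
      push_cast
      calc _ ≤ (N : ℝ) ^ 2 * 7.4 * 7.4 := by gcongr
        _ ≤ _ := by linarith)
    rw [e, e2] at a1
    rw [SS_eq] at a2
    set E := Real.exp (ρ ^ 2 / 2) with hE
    have x1 : 300 * (9 * ρ) ^ 2 / τ * Real.exp ((ρ + 2) ^ 2 / 2) ≤ E / 16 := by
      rw [show (ρ + 2) ^ 2 / 2 = ρ ^ 2 / 2 + (2 * ρ + 2) by ring, Real.exp_add, ← hE,
        div_mul_eq_mul_div, div_le_iff₀ hτ0]
      calc _ ≤ 300 * (9 * ρ) ^ 2 * (E * (N ^ 2 * 7.4)) := by gcongr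
        _ = E * (179820 * (ρ ^ 2 * N ^ 2)) := by ring
        _ ≤ E * (τ / 16) := by gcongr; nlinarith
        _ = _ := by ring
    have x2 : E = Real.exp (ρ ^ 2 / 4) * Real.exp (ρ ^ 2 / 4) := by
      rw [hE, ← Real.exp_add]; congr 1; ring
    have x3 := Real.add_one_le_exp (ρ ^ 2 / 4)
    have x6 : 8 * Real.exp (ρ ^ 2 / 4) ≤ E := by
      rw [x2]; gcongr; linarith
    have n1 := norm_sub_norm_le (FF (ρ - τ * I))
      (ff (c + (2 * ρ : ℝ) * I) / EE τ B (c + (2 * ρ : ℝ) * I))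
    have n2 := norm_sub_norm_le (SS ρ (55 * N ^ 2) τ) (FF (ρ - τ * I))
    rw [norm_sub_rev] at n1 n2
    rw [Pi.div_apply]
    linarith

theorem lower (N : ℕ) (hρ : 2 ^ 23 ≤ Real.log N) :
    ENNReal.ofReal (N ^ 20 * Real.log N / 2 ^ 64) ≤ nu ff {z | z.im ≠ 0 ∧ ‖z‖ ≤ N ^ 20} := by
  set ρ := Real.log N with hρd
  have hN : 0 < N := by
    rcases Nat.eq_zero_or_pos N with h | h
    · simp [hρd, h] at hρ
      linarith
    · exact h
  have hN0 : (0 : ℝ) < N := by exact_mod_cast hN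
  have hρN : ρ ≤ N := by linarith [Real.log_le_sub_one_of_pos hN0]
  set W := 20000 * ρ with hW
  have hW0 : 0 < W := by linarith
  set T : ℝ := N ^ 20 with hT
  have hT1 : (10 : ℝ) ^ 13 * N ^ 7 ≤ T := by
    have : (10 : ℝ) ^ 13 ≤ N ^ 13 := by gcongr; linarith
    have h2 : (0 : ℝ) ≤ N ^ 7 := by positivity
    nlinarith
  have hN7 : (N : ℝ) ≤ N ^ 7 := le_self_pow₀ (by linarith) (by norm_num)
  set J := ⌊T / (16 * W)⌋₊ with hJ
  have j1 : J * (16 * W) ≤ T := by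
    rw [← le_div_iff₀ (by positivity)]
    exact Nat.floor_le (by positivity)
  have j2 : T ≤ J * (32 * W) := by
    have := Nat.lt_floor_add_one (T / (16 * W))
    rw [div_lt_iff₀ (by positivity), ← hJ] at this
    linarith
  obtain ⟨G, g1, g2, g3⟩ := good_windows N (55 * N ^ 2) J hN (by nlinarith) W (T / 4) (by
    push_cast
    rw [Real.log_mul (by norm_num) hN0.ne']
    linarith [Real.log_two_lt_d9]) (by push_cast; nlinarith)
  have g4 : ∀ j ∈ G, ∃ A : Set ℂ, (∀ z ∈ A, T / 4 + 4 * j * W ≤ z.re ∧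
      z.re < T / 4 + 4 * (j + 1) * W ∧ z.im ≠ 0 ∧ ‖z‖ ≤ T) ∧
      ENNReal.ofReal (ρ ^ 2 / 2 ^ 43) ≤ nu ff A := by
    intro j hj
    obtain ⟨τ, ⟨t1, t2⟩, t3⟩ := g3 j hj
    have h0 : 0 ≤ (j : ℝ) * W := by positivity
    have h2 : (j : ℝ) + 1 ≤ J := by exact_mod_cast Finset.mem_range.mp (g1 hj)
    have h3 : ((j : ℝ) + 1) * W ≤ J * W := by gcongr
    obtain ⟨A, a1, a2⟩ := disc N hρ τ (by linarith) t3
    refine ⟨A, fun z hz => ?_, a2⟩
    obtain ⟨z1, z2, z3⟩ := a1 z hz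
    obtain ⟨z4, z5⟩ := abs_le.mp z1
    exact ⟨by linarith, by linarith, z2.ne, by linarith⟩
  choose! A a1 a2 using g4
  refine le_trans ?_ (nu_sum ff G A _ (fun j hj z hz => (a1 j hj z hz).2.2) ?_)
  · refine le_trans ?_ (Finset.card_nsmul_le_sum _ _ _ a2)
    rw [nsmul_eq_mul, ← ENNReal.ofReal_natCast, ← ENNReal.ofReal_mul (by positivity)]
    apply ENNReal.ofReal_le_ofReal
    have g5 : (J : ℝ) ≤ 2 * G.card := by exact_mod_cast g2
    have g6 : T ≤ 2 * G.card * (32 * W) := j2.trans (by gcongr)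
    have g7 : T * ρ ≤ 2 * G.card * (32 * W) * ρ := by gcongr
    have g8 : 0 ≤ (G.card : ℝ) * ρ ^ 2 := by positivity
    rw [hW] at g7
    nlinarith
  · have key : ∀ i ∈ G, ∀ j ∈ G, i < j → Disjoint (A i) (A j) := by
      intro i hi j hj h
      rw [Set.disjoint_left]
      intro z h1 h2
      have h3 : (i : ℝ) + 1 ≤ j := by exact_mod_cast h
      have h4 : ((i : ℝ) + 1) * W ≤ j * W := by gcongr
      linarith [(a1 i hi z h1).2.1, (a1 j hj z h2).1]
    intro i hi j hj h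
    rcases lt_or_gt_of_ne h with h | h
    · exact key i hi j hj h
    · exact (key j hj i hi h).symm

theorem ff_ne : ∃ c, ff c ≠ 0 := by
  obtain ⟨B, hB⟩ := exists_slope 20000 (by norm_num)
  refine ⟨⟨20000, 1 / 2 - 4 - B.re⟩, fun h => ?_⟩
  have := h_one (D := 4) (by norm_num) hB (by norm_num) (by norm_num) ⟨20000, 1 / 2 - 4 - B.re⟩
    (by simp) (by dsimp only; linarith) (by dsimp only; linarith)
  rw [h] at this
  norm_num at this

theorem upper : ∀ᶠ T : ℝ in atTop,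
    nu ff {z | ‖z‖ ≤ T} ≤ ENNReal.ofReal (20 * T * Real.log T) := by
  obtain ⟨c, hc⟩ := ff_ne
  filter_upwards [eventually_ge_atTop 3, eventually_ge_atTop (4 * ‖c‖ + 1),
    eventually_ge_atTop (3 - Real.log ‖ff c‖)] with T h1 h2 h3
  have hc0 := norm_nonneg c
  have l1 : 1 ≤ Real.log T := by
    rw [Real.le_log_iff_exp_le (by linarith)]
    linarith [Real.exp_one_lt_d9]
  refine (nu_mono ff (T := closedBall c (T + ‖c‖)) fun z hz => ?_).trans
    ((nu_upper (m1 := 8 * T * Real.log T + 3) (m2 := -Real.log ‖ff c‖) ff_diff (by linarith)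
      (fun z hz => ?_) ?_).trans (ENNReal.ofReal_le_ofReal ?_))
  · rw [mem_closedBall_iff_norm]
    exact (norm_sub_le _ _).trans (by gcongr; exact hz)
  · rw [mem_sphere_iff_norm] at hz
    have k1 := Nat.le_ceil (2 * T)
    have k2 := Nat.ceil_lt_add_one (show 0 ≤ 2 * T by linarith)
    set k := ⌈2 * T⌉₊
    have k3 : 1 ≤ k := by exact_mod_cast (show (1 : ℝ) ≤ k by linarith)
    have z1 := norm_sub_norm_le z c
    refine (ff_global k k3 z (by linarith [abs_im_le_norm z])).trans ?_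
    have k4 : (k : ℝ) ≤ Real.exp (2 * Real.log T) := by
      rw [show 2 * Real.log T = (2 : ℕ) * Real.log T by norm_num, Real.exp_nat_mul,
        Real.exp_log (by linarith)]
      nlinarith
    have k5 : (8 : ℝ) ≤ Real.exp 3 := by
      linarith [Real.quadratic_le_exp_of_nonneg (x := 3) (by norm_num)]
    calc _ ≤ Real.exp 3 * Real.exp (2 * Real.log T) ^ (k + 1) := by gcongr
      _ ≤ _ := by
        rw [← Real.exp_nat_mul, ← Real.exp_add, Real.exp_le_exp]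
        push_cast
        nlinarith
  · rw [neg_neg, Real.exp_log (norm_pos_iff.mpr hc)]
  · nlinarith

theorem count_eq (f : ℂ → ℂ) (S : Set ℂ) : zeroCount f S = nu f S :=
  tsum_subtype S fun z => (analyticOrderAt f z : ℝ≥0∞)

theorem main : ∀ᶠ T : ℝ in atTop, zeroCount ff {z | ‖z‖ ≤ T} ≠ 0 ∧ zeroCount ff {z | ‖z‖ ≤ T} ≠ ⊤ ∧
    zeroCount ff {z | z.im = 0 ∧ ‖z‖ ≤ T} ≤
      ENNReal.ofReal (1 - 1 / 2 ^ 94) * zeroCount ff {z | ‖z‖ ≤ T} := by
  filter_upwards [upper, eventually_ge_atTop ((Real.exp (2 ^ 23) + 1) ^ 20)] with T h1 h2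
  simp only [count_eq]
  have hx := Real.add_one_le_exp (2 ^ 23)
  have hT : 0 < T := lt_of_lt_of_le (by positivity) h2
  have e : (T ^ ((20 : ℕ) : ℝ)⁻¹) ^ 20 = T := Real.rpow_inv_natCast_pow hT.le (by norm_num)
  have y0 : 0 ≤ T ^ ((20 : ℕ) : ℝ)⁻¹ := by positivity
  generalize T ^ ((20 : ℕ) : ℝ)⁻¹ = y at e y0
  have n1 := Nat.floor_le y0
  have n2 := Nat.lt_floor_add_one y
  set N := ⌊y⌋₊
  have n3 : Real.exp (2 ^ 23) + 1 ≤ y := le_of_pow_le_pow_left₀ (n := 20) (by norm_num) y0 (e ▸ h2)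
  have hN0 : (0 : ℝ) < N := by linarith
  have hρ : 2 ^ 23 ≤ Real.log N := by
    rw [Real.le_log_iff_exp_le hN0]
    linarith
  have t1 : (N : ℝ) ^ 20 ≤ T := by rw [← e]; gcongr
  have t2 : T ≤ (2 * N) ^ 20 := by rw [← e]; gcongr; linarith
  have t3 : Real.log T ≤ 40 * Real.log N := by
    have := Real.log_le_log hT t2
    rw [Real.log_pow, Real.log_mul (by norm_num) hN0.ne'] at this
    push_cast at this
    linarith [Real.log_two_lt_d9]
  set Q := (N : ℝ) ^ 20 * Real.log N with hQ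
  have hQ0 : 0 < Q := mul_pos (by positivity) (by linarith)
  have u1 : nu ff {z | ‖z‖ ≤ T} ≤ ENNReal.ofReal (2 ^ 30 * Q) := by
    refine h1.trans (ENNReal.ofReal_le_ofReal ?_)
    calc _ ≤ 20 * T * (40 * Real.log N) := by gcongr
      _ ≤ 20 * (2 * N) ^ 20 * (40 * Real.log N) := by gcongr
      _ = 800 * 2 ^ 20 * Q := by rw [hQ]; ring
      _ ≤ _ := by linarith
  have u2 : ENNReal.ofReal (Q / 2 ^ 64) ≤ nu ff {z | z.im ≠ 0 ∧ ‖z‖ ≤ T} :=
    (lower N hρ).trans (nu_mono ff fun z hz => ⟨hz.1, hz.2.trans t1⟩)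
  have u3 : nu ff {z | ‖z‖ ≤ T} =
      nu ff {z | z.im = 0 ∧ ‖z‖ ≤ T} + nu ff {z | z.im ≠ 0 ∧ ‖z‖ ≤ T} := by
    rw [← nu_union ff (Set.disjoint_left.mpr fun z h1 h2 => h2.1 h1.1)]
    congr 1
    ext z
    simp only [Set.mem_ofPred_eq, Set.mem_union]
    tauto
  have f1 : nu ff {z | ‖z‖ ≤ T} ≠ ⊤ := ne_top_of_le_ne_top ENNReal.ofReal_ne_top u1
  obtain ⟨f2, f3⟩ := ENNReal.add_ne_top.mp (u3 ▸ f1)
  generalize nu ff {z | ‖z‖ ≤ T} = t at *
  generalize nu ff {z | z.im = 0 ∧ ‖z‖ ≤ T} = a at *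
  generalize nu ff {z | z.im ≠ 0 ∧ ‖z‖ ≤ T} = b at *
  have v1 := ENNReal.toReal_le_of_le_ofReal (by positivity) u1
  have v2 := (ENNReal.ofReal_le_iff_le_toReal f3).mp u2
  have v3 : t.toReal = a.toReal + b.toReal := by rw [u3, ENNReal.toReal_add f2 f3]
  refine ⟨fun h => ?_, f1, ?_⟩
  · rw [h, ENNReal.toReal_zero] at v3
    have := ENNReal.toReal_nonneg (a := a)
    have : 0 < Q / 2 ^ 64 := by positivity
    linarith
  · rw [← ENNReal.ofReal_toReal f1, ← ENNReal.ofReal_mul (by norm_num), ← ENNReal.ofReal_toReal f2]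
    apply ENNReal.ofReal_le_ofReal
    linarith

end Pool.Agent.H.MP_023270_nt
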